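import Mathlib
import Pool.Agent.Work.MP_f2148a_nt.Exp.Defs

set_option autoImplicit false

namespace Pool.Agent.Work.MP_f2148a_nt.Exp

open Polynomial

/-- The derived linear form of `r U + p V`, as a pair. -/
noncomputable def nab (a b c m : ℤ) (f : ℤ[X] × ℤ[X]) : ℤ[X] × ℤ[X] :=
  (hatU a b c m f, hatV a b c m f)

/-- The monomial pairs `(X ^ n, 0)` and `(0, X ^ n)`. -/
noncomputable def mb (c : ℕ × Bool) : ℤ[X] × ℤ[X] := if c.2 then (0, X ^ c.1) else (X ^ c.1, 0)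

/-- The linear functionals attached to `(p, r, d)`: values of the `l`-th derived form. -/
noncomputable def rowl (a b c m p r d : ℤ) (l : ℕ) (f : ℤ[X] × ℤ[X]) : ℤ :=
  r * ((nab a b c m)^[l] f).1.eval d + p * ((nab a b c m)^[l] f).2.eval d

/-- The leading coefficient of the differential operator. -/
noncomputable def spol (a b c : ℤ) (X0 : ℝ) : ℝ[X] :=
  (C (a : ℝ) * (C X0 + X) ^ 2 + 2 * C (b : ℝ) * (C X0 + X) + C (c : ℝ)) *
    ((C (a : ℝ) * (C X0 + X) + C (b : ℝ)) ^ 2 + 4 * (C (a : ℝ) * C (c : ℝ) - C (b : ℝ) ^ 2))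

/-- The differential operator on `ℝ[ξ]` which corresponds to `nab` under `wpol`. -/
noncomputable def Top (a b c : ℤ) (X0 : ℝ) (w : ℝ[X]) : ℝ[X] :=
  -spol a b c X0 * derivative w +
    2 * C (a : ℝ) * (C (a : ℝ) * C (c : ℝ) - C (b : ℝ) ^ 2) * (C X0 + X) * w

/-- The functional on the monomial `ξ ^ k` that approximates `rowl` (`ξ = p / r - X0`). -/
noncomputable def yl (a b c p r : ℤ) (X0 : ℝ) (l k : ℕ) : ℝ :=
  (r : ℝ) * ((Top a b c X0)^[l] (X ^ k)).eval ((p : ℝ) / r - X0)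

end Pool.Agent.Work.MP_f2148a_nt.Exp
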