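import Mathlib
import Pool.Agent.Work.MP_f2148a_nt.Exp3.Defs3
import Pool.Agent.Work.MP_f2148a_nt.Exp.WBound

set_option autoImplicit false

namespace Pool.Agent.Work.MP_f2148a_nt.Exp

open Polynomial

/-- the majorant of `dpol` -/
private noncomputable def DD (R : ℝ) : ℝ[X] :=
  C (1 / 2) + C (12 * R) * X + C (6 * R) * X ^ 2 + C R * X ^ 3

private theorem maj_dpol (a b c m : ℤ) (X0 R : ℝ) (hX0 : |X0| ≤ 1) (hR : 1 ≤ R)
    (ha : |(a : ℝ)| ≤ R) (hb : |(b : ℝ)| ≤ R) (hc : |(c : ℝ)| ≤ R)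
    (hm : |-((a : ℝ) * X0 ^ 3 + 3 * b * X0 ^ 2 + 3 * c * X0) - m| ≤ 1 / 2) :
    Maj (dpol a b c m X0) (DD R) := by
  have e : dpol a b c m X0 =
      C (-((a : ℝ) * X0 ^ 3 + 3 * b * X0 ^ 2 + 3 * c * X0) - m) +
      C (-(3 * (a : ℝ) * X0 ^ 2 + 6 * b * X0 + 3 * c)) * X +
      C (-(3 * (a : ℝ) * X0 + 3 * b)) * X ^ 2 + C (-(a : ℝ)) * X ^ 3 := by
    unfold dpol
    simp only [C_neg, C_add, C_sub, C_mul, C_pow]
    have h3 : (C (3 : ℝ) : ℝ[X]) = 3 := rfl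
    have h6 : (C (6 : ℝ) : ℝ[X]) = 6 := rfl
    rw [h3, h6]
    ring
  rw [e, DD]
  have hX2 : |X0 ^ 2| ≤ 1 := by
    rw [abs_pow]
    exact pow_le_one₀ (abs_nonneg _) hX0
  have b1 : |(a : ℝ) * X0 ^ 2| ≤ R := by
    rw [abs_mul]
    exact (mul_le_mul ha hX2 (abs_nonneg _) (by linarith)).trans (by linarith)
  have b2 : |(b : ℝ) * X0| ≤ R := by
    rw [abs_mul]
    exact (mul_le_mul hb hX0 (abs_nonneg _) (by linarith)).trans (by linarith)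
  have b3 : |(a : ℝ) * X0| ≤ R := by
    rw [abs_mul]
    exact (mul_le_mul ha hX0 (abs_nonneg _) (by linarith)).trans (by linarith)
  rw [abs_le] at b1 b2 b3 hb hc
  refine ((((Maj.const hm)).add ((Maj.const ?_).mul Maj.X)).add
    ((Maj.const ?_).mul (Maj.X.pow 2))).add ((Maj.const ?_).mul (Maj.X.pow 3))
  · rw [abs_le]
    constructor <;> nlinarith
  · rw [abs_le]
    constructor <;> nlinarith
  · rw [abs_neg]
    exact ha

private theorem DD_eval_nonneg (R ρ : ℝ) (hR : 1 ≤ R) (hρ : 0 ≤ ρ) : 0 ≤ (DD R).eval ρ := by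
  rw [DD]
  simp only [eval_add, eval_mul, eval_C, eval_X, eval_pow]
  positivity

private theorem DD_eval_le (R ρ : ℝ) (hR : 1 ≤ R) (hρ : 0 ≤ ρ) (hρ1 : ρ ≤ 1)
    (h : 1 ≤ R * ρ) : (DD R).eval ρ ≤ 20 * (R * ρ) := by
  rw [DD]
  simp only [eval_add, eval_mul, eval_C, eval_X, eval_pow]
  have h1 : R * ρ ^ 2 ≤ R * ρ := by
    apply mul_le_mul_of_nonneg_left _ (by linarith)
    nlinarith
  have h2 : R * ρ ^ 3 ≤ R * ρ := by
    apply mul_le_mul_of_nonneg_left _ (by linarith)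
    nlinarith [mul_nonneg hρ hρ]
  linarith

private theorem coeff_le_eval {w W : ℝ[X]} (h : Maj w W) {ρ : ℝ} (hρ : 0 ≤ ρ) (k : ℕ) :
    |w.coeff k| * ρ ^ k ≤ W.eval ρ := by
  refine le_trans ?_ (nrm_le_eval h hρ)
  unfold nrm
  by_cases hk : k ∈ w.support
  · exact Finset.single_le_sum (f := fun k => |w.coeff k| * ρ ^ k)
      (fun j _ => mul_nonneg (abs_nonneg _) (pow_nonneg hρ _)) hk
  · rw [notMem_support_iff.1 hk, abs_zero, zero_mul]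
    exact Finset.sum_nonneg fun j _ => mul_nonneg (abs_nonneg _) (pow_nonneg hρ _)

private theorem wpol_mb_false (a b c m : ℤ) (X0 : ℝ) (n : ℕ) :
    wpol a b c m X0 (mb (n, false)) = dpol a b c m X0 ^ n := by
  unfold wpol mb
  simp

private theorem wpol_mb_true (a b c m : ℤ) (X0 : ℝ) (n : ℕ) :
    wpol a b c m X0 (mb (n, true)) = (C X0 + X) * dpol a b c m X0 ^ n := by
  unfold wpol mb
  simp

private theorem wpol_coeff3 (a b c m : ℤ) (X0 R ρ : ℝ) (hX0 : |X0| ≤ 1) (hR : 1 ≤ R)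
    (ha : |(a : ℝ)| ≤ R) (hb : |(b : ℝ)| ≤ R) (hc : |(c : ℝ)| ≤ R) (hρ0 : 0 < ρ) (hρ1 : ρ ≤ 1)
    (hm : |-((a : ℝ) * X0 ^ 3 + 3 * b * X0 ^ 2 + 3 * c * X0) - m| ≤ 1 / 2)
    (hG : 1 ≤ R * ρ) (n : ℕ) (σ : Bool) (k : ℕ) :
    |(wpol a b c m X0 (mb (n, σ))).coeff k| * ρ ^ k ≤ 2 * (22 * (R * ρ)) ^ n := by
  have hd := maj_dpol a b c m X0 R hX0 hR ha hb hc hm
  have h0 := DD_eval_nonneg R ρ hR hρ0.le
  have h1 : (DD R).eval ρ ≤ 22 * (R * ρ) := by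
    have := DD_eval_le R ρ hR hρ0.le hρ1 hG
    linarith
  have hev : ((DD R) ^ n).eval ρ ≤ (22 * (R * ρ)) ^ n := by
    rw [eval_pow]
    exact pow_le_pow_left₀ h0 h1 n
  have hY : 0 ≤ (22 * (R * ρ)) ^ n := by positivity
  cases σ
  · rw [wpol_mb_false]
    refine (coeff_le_eval (hd.pow n) hρ0.le k).trans (hev.trans ?_)
    linarith
  · rw [wpol_mb_true]
    refine (coeff_le_eval (((Maj.const hX0).add Maj.X).mul (hd.pow n)) hρ0.le k).trans ?_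
    rw [eval_mul, eval_add, eval_C, eval_X]
    calc (1 + ρ) * eval ρ ((DD R) ^ n)
        ≤ (1 + ρ) * (22 * (R * ρ)) ^ n := mul_le_mul_of_nonneg_left hev (by linarith)
      _ ≤ 2 * (22 * (R * ρ)) ^ n := mul_le_mul_of_nonneg_right (by linarith) hY

/-- Module MbCoeff3. -/
theorem mb_coeff (a b c m : ℤ) (X0 R w : ℝ) (hX0 : |X0| ≤ 1) (hR : 1 ≤ R)
    (ha : |(a : ℝ)| ≤ R) (hb : |(b : ℝ)| ≤ R) (hc : |(c : ℝ)| ≤ R) (hw0 : 0 < w) (hw1 : w ≤ 1)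
    (hm : |-((a : ℝ) * X0 ^ 3 + 3 * b * X0 ^ 2 + 3 * c * X0) - m| ≤ 1 / 2)
    (hRw : 1 ≤ R * w) (n : ℕ) (σ : Bool) (k : ℕ) :
    |(wpol a b c m X0 (mb (n, σ))).coeff k| * w ^ k ≤ 2 * (22 * (R * w)) ^ n * w ^ (k - n) := by
  rcases le_or_gt k n with hkn | hkn
  · rw [Nat.sub_eq_zero_of_le hkn, pow_zero, mul_one]
    exact wpol_coeff3 a b c m X0 R w hX0 hR ha hb hc hw0 hw1 hm hRw n σ k
  · have h1 := wpol_coeff3 a b c m X0 R 1 hX0 hR ha hb hc one_pos le_rfl hm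
      (by rw [mul_one]; exact hR) n σ k
    rw [one_pow, mul_one, mul_one] at h1
    have h2 : w ^ k = w ^ n * w ^ (k - n) := by
      rw [← pow_add]
      congr 1
      omega
    calc |(wpol a b c m X0 (mb (n, σ))).coeff k| * w ^ k
        ≤ 2 * (22 * R) ^ n * w ^ k := mul_le_mul_of_nonneg_right h1 (by positivity)
      _ = 2 * (22 * (R * w)) ^ n * w ^ (k - n) := by
        rw [h2, ← mul_assoc (22 : ℝ), mul_pow (22 * R) w]
        ring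

private theorem natDegree_dpol (a b c m : ℤ) (X0 : ℝ) : (dpol a b c m X0).natDegree ≤ 3 := by
  unfold dpol
  compute_degree

/-- Module MbCoeff3, degree. -/
theorem mb_deg (a b c m : ℤ) (X0 : ℝ) (n : ℕ) (σ : Bool) :
    (wpol a b c m X0 (mb (n, σ))).natDegree ≤ 3 * n + 1 := by
  have h1 : (dpol a b c m X0 ^ n).natDegree ≤ n * 3 :=
    natDegree_pow_le_of_le n (natDegree_dpol a b c m X0)
  cases σ
  · rw [wpol_mb_false]
    omega
  · rw [wpol_mb_true]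
    have h3 : (C X0 + X : ℝ[X]).natDegree ≤ 1 := by compute_degree
    refine (natDegree_mul_le).trans ?_
    omega

end Pool.Agent.Work.MP_f2148a_nt.Exp
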