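import Mathlib
import Pool.Agent.Work.MP_f2148a_nt.Exp.WBound
import Pool.Agent.Work.MP_f2148a_nt.Exp.NHat
import Pool.Agent.Work.MP_f2148a_nt.Exp3.Defs3

set_option autoImplicit false

namespace Pool.Agent.Work.MP_f2148a_nt.Exp

open Polynomial

namespace NabBd3Aux

/-- The polynomial of absolute values of the coefficients. -/
noncomputable def ab (w : ℝ[X]) : ℝ[X] := ∑ k ∈ w.support, C |w.coeff k| * X ^ k

theorem ab_coeff (w : ℝ[X]) (k : ℕ) : (ab w).coeff k = |w.coeff k| := by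
  unfold ab
  rw [finsetSum_coeff]
  simp only [coeff_C_mul, coeff_X_pow, mul_ite, mul_one, mul_zero]
  rw [Finset.sum_ite_eq]
  split_ifs with h
  · rfl
  · rw [notMem_support_iff.mp h, abs_zero]

theorem ab_eval (w : ℝ[X]) (ρ : ℝ) : (ab w).eval ρ = nrm w ρ := by
  unfold ab nrm
  rw [eval_finsetSum]
  simp

theorem maj_ab (w : ℝ[X]) : Maj w (ab w) := fun k => (ab_coeff w k).ge

theorem nrm_nonneg (w : ℝ[X]) {ρ : ℝ} (hρ : 0 ≤ ρ) : 0 ≤ nrm w ρ := by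
  unfold nrm
  positivity

theorem nrm_mul_le (p q : ℝ[X]) {ρ : ℝ} (hρ : 0 ≤ ρ) : nrm (p * q) ρ ≤ nrm p ρ * nrm q ρ := by
  have := nrm_le_eval ((maj_ab p).mul (maj_ab q)) hρ
  rwa [eval_mul, ab_eval, ab_eval] at this

theorem nrm_add_le (p q : ℝ[X]) {ρ : ℝ} (hρ : 0 ≤ ρ) : nrm (p + q) ρ ≤ nrm p ρ + nrm q ρ := by
  have := nrm_le_eval ((maj_ab p).add (maj_ab q)) hρ
  rwa [eval_add, ab_eval, ab_eval] at this

theorem nrm_sub_le (p q : ℝ[X]) {ρ : ℝ} (hρ : 0 ≤ ρ) : nrm (p - q) ρ ≤ nrm p ρ + nrm q ρ := by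
  have := nrm_le_eval ((maj_ab p).add (maj_ab q).neg) hρ
  rwa [eval_add, ab_eval, ab_eval, ← sub_eq_add_neg] at this

theorem nrm_C_le (x : ℝ) {A ρ : ℝ} (hρ : 0 ≤ ρ) (h : |x| ≤ A) : nrm (C x) ρ ≤ A := by
  have := nrm_le_eval (Maj.const h) hρ
  rwa [eval_C] at this

theorem nrm_X_mul (q : ℝ[X]) (ρ : ℝ) : nrm (X * q) ρ = ρ * nrm q ρ := by
  rw [← ab_eval, ← ab_eval]
  have : ab (X * q) = X * ab q := by
    ext k
    rw [ab_coeff]
    cases k with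
    | zero => simp
    | succ k => rw [coeff_X_mul, coeff_X_mul, ab_coeff]
  rw [this, eval_mul, eval_X]

theorem nrm_deriv_le (p : ℝ[X]) (N : ℕ) (hN : p.natDegree ≤ N) {ρ : ℝ} (hρ : 0 < ρ) :
    nrm (derivative p) ρ ≤ N / ρ * nrm p ρ := by
  have h : Maj (X * derivative p) (C (N : ℝ) * ab p) := by
    intro k
    rw [coeff_C_mul, ab_coeff]
    cases k with
    | zero =>
      simp only [mul_coeff_zero, coeff_X_zero, zero_mul, abs_zero]
      positivity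
    | succ k =>
      rw [coeff_X_mul, coeff_derivative, abs_mul, mul_comm]
      by_cases hk : k + 1 ≤ N
      · apply mul_le_mul_of_nonneg_right _ (abs_nonneg _)
        rw [abs_of_nonneg (by positivity)]
        exact_mod_cast hk
      · rw [coeff_eq_zero_of_natDegree_lt (by omega)]
        simp
  have h1 := nrm_le_eval h hρ.le
  rw [nrm_X_mul, eval_mul, eval_C, ab_eval] at h1
  rw [div_mul_eq_mul_div, le_div_iff₀ hρ]
  linarith

theorem map_delta (a b c m : ℤ) : (delta a b c m).map (Int.castRingHom ℝ) =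
    C ((a : ℝ) ^ 2) * (X + C (m : ℝ)) ^ 2 +
      C (4 * (b : ℝ) ^ 3 - 6 * a * b * c) * (X + C (m : ℝ)) +
    C (4 * (a : ℝ) * c ^ 3 - 3 * b ^ 2 * c ^ 2) := by
  simp [delta, map_ofNat]

theorem map_ps1 (a b c m : ℤ) : (ps1 a b c m).map (Int.castRingHom ℝ) =
    C (7 * (a : ℝ) * b * c - 6 * b ^ 3) - C ((a : ℝ) ^ 2) * (X + C (m : ℝ)) := by
  simp [ps1, map_ofNat]

theorem map_ps0 (a b c m : ℤ) : (ps0 a b c m).map (Int.castRingHom ℝ) =
    C (4 * (a : ℝ) * c ^ 2 - 3 * b ^ 2 * c) - C ((a : ℝ) * b) * (X + C (m : ℝ)) := by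
  simp [ps0, map_ofNat]

theorem nrm_Xm (m : ℤ) (R Y : ℝ) (hY : 0 ≤ Y) (hY2 : Y ≤ 22 * R) (hm : |(m : ℝ)| ≤ 8 * R) :
    nrm (X + C (m : ℝ)) Y ≤ 30 * R := by
  refine (nrm_add_le _ _ hY).trans ?_
  have h1 : nrm (X : ℝ[X]) Y ≤ Y := by
    have := nrm_le_eval Maj.X hY
    rwa [eval_X] at this
  have h2 := nrm_C_le (m : ℝ) hY hm
  linarith

open NHatAux in
theorem nrm_delta (a b c m : ℤ) (R Y : ℝ) (hR : 1 ≤ R) (hY : 0 ≤ Y) (hY2 : Y ≤ 22 * R)
    (ha : |(a : ℝ)| ≤ R) (hb : |(b : ℝ)| ≤ R) (hc : |(c : ℝ)| ≤ R) (hm : |(m : ℝ)| ≤ 8 * R) :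
    nrm ((delta a b c m).map (Int.castRingHom ℝ)) Y ≤ 1207 * R ^ 4 := by
  have hR0 : 0 ≤ R := by linarith
  have hX := nrm_Xm m R Y hY hY2 hm
  have hX0 := nrm_nonneg (X + C (m : ℝ)) hY
  have ha2 : |(a : ℝ) ^ 2| ≤ R ^ 2 := by rw [abs_pow]; exact pow_le_pow_left₀ (abs_nonneg _) ha 2
  have hb2 : |(b : ℝ) ^ 2| ≤ R ^ 2 := by rw [abs_pow]; exact pow_le_pow_left₀ (abs_nonneg _) hb 2
  have hc2 : |(c : ℝ) ^ 2| ≤ R ^ 2 := by rw [abs_pow]; exact pow_le_pow_left₀ (abs_nonneg _) hc 2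
  have hb3 : |(b : ℝ) ^ 3| ≤ R ^ 3 := by rw [abs_pow]; exact pow_le_pow_left₀ (abs_nonneg _) hb 3
  have hc3 : |(c : ℝ) ^ 3| ≤ R ^ 3 := by rw [abs_pow]; exact pow_le_pow_left₀ (abs_nonneg _) hc 3
  have hnum : ∀ x : ℝ, 0 ≤ x → |x| ≤ x := fun x hx => (abs_of_nonneg hx).le
  have h4 : |(4 : ℝ)| ≤ 4 := hnum 4 (by norm_num)
  have h6 : |(6 : ℝ)| ≤ 6 := hnum 6 (by norm_num)
  have h3 : |(3 : ℝ)| ≤ 3 := hnum 3 (by norm_num)
  have hk1 : |4 * (b : ℝ) ^ 3 - 6 * a * b * c| ≤ 4 * R ^ 3 + 6 * R * R * R :=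
    as (am h4 hb3) (am (am (am h6 ha) hb) hc)
  have hk2 : |4 * (a : ℝ) * c ^ 3 - 3 * b ^ 2 * c ^ 2| ≤ 4 * R * R ^ 3 + 3 * R ^ 2 * R ^ 2 :=
    as (am (am h4 ha) hc3) (am (am h3 hb2) hc2)
  rw [map_delta]
  have e1 : nrm (C ((a : ℝ) ^ 2) * (X + C (m : ℝ)) ^ 2) Y ≤ R ^ 2 * (30 * R) ^ 2 := by
    refine (nrm_mul_le _ _ hY).trans ?_
    refine mul_le_mul (nrm_C_le _ hY ha2) ?_ (nrm_nonneg _ hY) (by positivity)
    rw [pow_two, pow_two]
    refine (nrm_mul_le _ _ hY).trans ?_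
    exact mul_le_mul hX hX hX0 (by positivity)
  have e2 : nrm (C (4 * (b : ℝ) ^ 3 - 6 * a * b * c) * (X + C (m : ℝ))) Y ≤
      (4 * R ^ 3 + 6 * R * R * R) * (30 * R) := by
    refine (nrm_mul_le _ _ hY).trans ?_
    exact mul_le_mul (nrm_C_le _ hY hk1) hX hX0 (by positivity)
  have e3 := nrm_C_le _ hY hk2
  refine (nrm_add_le _ _ hY).trans ?_
  have e4 := nrm_add_le (C ((a : ℝ) ^ 2) * (X + C (m : ℝ)) ^ 2)
    (C (4 * (b : ℝ) ^ 3 - 6 * a * b * c) * (X + C (m : ℝ))) hY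
  have e5 : R ^ 2 * (30 * R) ^ 2 + (4 * R ^ 3 + 6 * R * R * R) * (30 * R) +
    (4 * R * R ^ 3 + 3 * R ^ 2 * R ^ 2) = 1207 * R ^ 4 := by ring
  linarith

open NHatAux in
theorem nrm_ps1 (a b c m : ℤ) (R Y : ℝ) (hR : 1 ≤ R) (hY : 0 ≤ Y) (hY2 : Y ≤ 22 * R)
    (ha : |(a : ℝ)| ≤ R) (hb : |(b : ℝ)| ≤ R) (hc : |(c : ℝ)| ≤ R) (hm : |(m : ℝ)| ≤ 8 * R) :
    nrm ((ps1 a b c m).map (Int.castRingHom ℝ)) Y ≤ 43 * R ^ 3 := by
  have hR0 : 0 ≤ R := by linarith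
  have hX := nrm_Xm m R Y hY hY2 hm
  have hX0 := nrm_nonneg (X + C (m : ℝ)) hY
  have ha2 : |(a : ℝ) ^ 2| ≤ R ^ 2 := by rw [abs_pow]; exact pow_le_pow_left₀ (abs_nonneg _) ha 2
  have hb3 : |(b : ℝ) ^ 3| ≤ R ^ 3 := by rw [abs_pow]; exact pow_le_pow_left₀ (abs_nonneg _) hb 3
  have hnum : ∀ x : ℝ, 0 ≤ x → |x| ≤ x := fun x hx => (abs_of_nonneg hx).le
  have h6 : |(6 : ℝ)| ≤ 6 := hnum 6 (by norm_num)
  have h7 : |(7 : ℝ)| ≤ 7 := hnum 7 (by norm_num)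
  have hk1 : |7 * (a : ℝ) * b * c - 6 * b ^ 3| ≤ 7 * R * R * R + 6 * R ^ 3 :=
    as (am (am (am h7 ha) hb) hc) (am h6 hb3)
  rw [map_ps1]
  have e2 : nrm (C ((a : ℝ) ^ 2) * (X + C (m : ℝ))) Y ≤ R ^ 2 * (30 * R) := by
    refine (nrm_mul_le _ _ hY).trans ?_
    exact mul_le_mul (nrm_C_le _ hY ha2) hX hX0 (by positivity)
  have e3 := nrm_C_le _ hY hk1
  refine (nrm_sub_le _ _ hY).trans ?_
  have e5 : 7 * R * R * R + 6 * R ^ 3 + R ^ 2 * (30 * R) = 43 * R ^ 3 := by ring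
  linarith

open NHatAux in
theorem nrm_ps0 (a b c m : ℤ) (R Y : ℝ) (hR : 1 ≤ R) (hY : 0 ≤ Y) (hY2 : Y ≤ 22 * R)
    (ha : |(a : ℝ)| ≤ R) (hb : |(b : ℝ)| ≤ R) (hc : |(c : ℝ)| ≤ R) (hm : |(m : ℝ)| ≤ 8 * R) :
    nrm ((ps0 a b c m).map (Int.castRingHom ℝ)) Y ≤ 37 * R ^ 3 := by
  have hR0 : 0 ≤ R := by linarith
  have hX := nrm_Xm m R Y hY hY2 hm
  have hX0 := nrm_nonneg (X + C (m : ℝ)) hY
  have hb2 : |(b : ℝ) ^ 2| ≤ R ^ 2 := by rw [abs_pow]; exact pow_le_pow_left₀ (abs_nonneg _) hb 2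
  have hc2 : |(c : ℝ) ^ 2| ≤ R ^ 2 := by rw [abs_pow]; exact pow_le_pow_left₀ (abs_nonneg _) hc 2
  have hnum : ∀ x : ℝ, 0 ≤ x → |x| ≤ x := fun x hx => (abs_of_nonneg hx).le
  have h4 : |(4 : ℝ)| ≤ 4 := hnum 4 (by norm_num)
  have h3 : |(3 : ℝ)| ≤ 3 := hnum 3 (by norm_num)
  have hk1 : |4 * (a : ℝ) * c ^ 2 - 3 * b ^ 2 * c| ≤ 4 * R * R ^ 2 + 3 * R ^ 2 * R :=
    as (am (am h4 ha) hc2) (am (am h3 hb2) hc)
  rw [map_ps0]
  have e2 : nrm (C ((a : ℝ) * b) * (X + C (m : ℝ))) Y ≤ R * R * (30 * R) := by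
    refine (nrm_mul_le _ _ hY).trans ?_
    exact mul_le_mul (nrm_C_le _ hY (am ha hb)) hX hX0 (by positivity)
  have e3 := nrm_C_le _ hY hk1
  refine (nrm_sub_le _ _ hY).trans ?_
  have e5 : 4 * R * R ^ 2 + 3 * R ^ 2 * R + R * R * (30 * R) = 37 * R ^ 3 := by ring
  linarith

theorem natDegree_delta (a b c m : ℤ) : (delta a b c m).natDegree ≤ 2 := by
  unfold delta
  compute_degree

theorem natDegree_ps1 (a b c m : ℤ) : (ps1 a b c m).natDegree ≤ 1 := by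
  unfold ps1
  compute_degree

theorem natDegree_ps0 (a b c m : ℤ) : (ps0 a b c m).natDegree ≤ 1 := by
  unfold ps0
  compute_degree

theorem natDegree_top (a b c m : ℤ) (p : ℤ[X]) (N : ℕ) (hp : p.natDegree ≤ N) :
    (3 * delta a b c m * derivative p).natDegree ≤ N + 1 := by
  rcases Nat.eq_zero_or_pos N with rfl | hN
  · have : derivative p = 0 := by
      rw [eq_C_of_natDegree_le_zero hp, derivative_C]
    rw [this, mul_zero, natDegree_zero]
    exact Nat.zero_le _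
  · refine natDegree_mul_le.trans ?_
    have h1 : (3 * delta a b c m).natDegree ≤ 2 := by
      refine natDegree_mul_le.trans ?_
      have := natDegree_delta a b c m
      have h3 : (3 : ℤ[X]).natDegree = 0 := natDegree_ofNat 3
      omega
    have h2 := natDegree_derivative_le p
    omega

theorem natDegree_hatU (a b c m : ℤ) (f : ℤ[X] × ℤ[X]) (N : ℕ) (h1 : f.1.natDegree ≤ N)
    (h2 : f.2.natDegree ≤ N) : (hatU a b c m f).natDegree ≤ N + 1 := by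
  unfold hatU
  refine (natDegree_sub_le _ _).trans (max_le (natDegree_top a b c m _ N h1) ?_)
  refine natDegree_mul_le.trans ?_
  have := natDegree_ps0 a b c m
  omega

theorem natDegree_hatV (a b c m : ℤ) (f : ℤ[X] × ℤ[X]) (N : ℕ) (h1 : f.1.natDegree ≤ N)
    (h2 : f.2.natDegree ≤ N) : (hatV a b c m f).natDegree ≤ N + 1 := by
  unfold hatV
  refine (natDegree_add_le _ _).trans (max_le ?_ ?_)
  · refine (natDegree_sub_le _ _).trans (max_le (natDegree_top a b c m _ N h2) ?_)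
    refine natDegree_mul_le.trans ?_
    have := natDegree_ps1 a b c m
    omega
  · refine (natDegree_C_mul_le _ _).trans ?_
    omega

theorem arith (R w i N Y D P0 P1 K A B : ℝ) (hR : 1 ≤ R) (hw0 : 0 < w) (hw1 : w ≤ 1)
    (hi : 1 ≤ i) (hN0 : 0 ≤ N) (hN : N ≤ 2 * i) (hY : Y = 22 * (R * w))
    (hD : D ≤ 1207 * R ^ 4)
    (hP0 : P0 ≤ 37 * R ^ 3) (hP1 : P1 ≤ 43 * R ^ 3) (hK : K ≤ 4 * R ^ 3) (hA : 0 ≤ A)
    (hB : 0 ≤ B) :
    (3 * D * (N / Y * A) + P0 * B) + (3 * D * (N / Y * B) + P1 * B + K * A) ≤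
      1000 * R ^ 4 * i / w * (A + B) := by
  have hR0 : 0 < R := by linarith
  have hY0 : 0 < Y := by rw [hY]; positivity
  have h1 : 3 * D * (N / Y) ≤ 330 * R ^ 3 * i / w := by
    have h2 : 3 * D * (N / Y) ≤ 3 * (1207 * R ^ 4) * ((2 * i) / Y) := by
      apply mul_le_mul
      · linarith
      · exact div_le_div_of_nonneg_right hN hY0.le
      · positivity
      · positivity
    refine h2.trans ?_
    rw [hY]
    have h3 : 3 * (1207 * R ^ 4) * (2 * i / (22 * (R * w))) = (7242 / 22) * R ^ 3 * i / w := by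
      field_simp
      ring
    rw [h3]
    apply div_le_div_of_nonneg_right _ hw0.le
    have : 0 ≤ R ^ 3 * i := by positivity
    nlinarith
  have h2 : R ^ 3 ≤ R ^ 3 * i / w := by
    rw [le_div_iff₀ hw0]
    have h3 : w ≤ i := by linarith
    exact mul_le_mul_of_nonneg_left h3 (by positivity)
  have h4 : R ^ 3 * i / w ≤ R ^ 4 * i / w := by
    apply div_le_div_of_nonneg_right _ hw0.le
    have : 0 ≤ R ^ 3 * i := by positivity
    nlinarith
  have h5 : 0 ≤ R ^ 3 * i / w := by positivity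
  set Z := R ^ 3 * i / w with hZ
  set Z' := R ^ 4 * i / w with hZ'
  have e1 : 330 * R ^ 3 * i / w = 330 * Z := by rw [hZ]; ring
  have e2 : 1000 * R ^ 4 * i / w = 1000 * Z' := by rw [hZ']; ring
  rw [e1] at h1
  rw [e2]
  set T := 3 * D * (N / Y) with hT
  have hR3 : 0 ≤ R ^ 3 := by positivity
  have g1 : T * (A + B) ≤ 330 * Z * (A + B) := mul_le_mul_of_nonneg_right h1 (by positivity)
  have g2 : (P0 + P1) * B ≤ 80 * Z * B := mul_le_mul_of_nonneg_right (by linarith) hB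
  have g3 : K * A ≤ 4 * Z * A := mul_le_mul_of_nonneg_right (by linarith) hA
  have g4 : 410 * Z * (A + B) ≤ 1000 * Z' * (A + B) :=
    mul_le_mul_of_nonneg_right (by linarith) (by positivity)
  have g5 : 0 ≤ Z * A := by positivity
  have g6 : 0 ≤ Z * B := by positivity
  have e3 : (3 * D * (N / Y * A) + P0 * B) + (3 * D * (N / Y * B) + P1 * B + K * A) =
      T * (A + B) + (P0 + P1) * B + K * A := by rw [hT]; ring
  rw [e3]
  nlinarith

end NabBd3Aux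

open NabBd3Aux NHatAux

/-- Module NabBd3. -/
theorem nab_nrm (a b c m : ℤ) (X0 R w : ℝ) (hX0 : |X0| ≤ 1) (hR : 1 ≤ R)
    (ha : |(a : ℝ)| ≤ R) (hb : |(b : ℝ)| ≤ R) (hc : |(c : ℝ)| ≤ R) (hw0 : 0 < w) (hw1 : w ≤ 1)
    (hm : |-((a : ℝ) * X0 ^ 3 + 3 * b * X0 ^ 2 + 3 * c * X0) - m| ≤ 1 / 2)
    (hRw : 1 ≤ R * w) (i : ℕ) (n : ℕ) (hn : n < i) (σ : Bool) (l : ℕ) (hl : l ≤ i) :
    nrm (((nab a b c m)^[l] (mb (n, σ))).1.map (Int.castRingHom ℝ)) (22 * (R * w)) +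
      nrm (((nab a b c m)^[l] (mb (n, σ))).2.map (Int.castRingHom ℝ)) (22 * (R * w)) ≤
      (1000 * R ^ 4 * i / w) ^ l * (22 * (R * w)) ^ n ∧
    ((nab a b c m)^[l] (mb (n, σ))).1.natDegree ≤ n + l ∧
    ((nab a b c m)^[l] (mb (n, σ))).2.natDegree ≤ n + l := by
  have hR0 : 0 < R := by linarith
  have hY0 : 0 < 22 * (R * w) := by positivity
  have hY2 : 22 * (R * w) ≤ 22 * R := by nlinarith
  have hm8 : |(m : ℝ)| ≤ 8 * R := by
    have hnum : ∀ x : ℝ, 0 ≤ x → |x| ≤ x := fun x hx => (abs_of_nonneg hx).le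
    have h3 : |(3 : ℝ)| ≤ 3 := hnum 3 (by norm_num)
    have hX2 : |X0 ^ 2| ≤ 1 ^ 2 := by
      rw [abs_pow]; exact pow_le_pow_left₀ (abs_nonneg _) hX0 2
    have hX3 : |X0 ^ 3| ≤ 1 ^ 3 := by
      rw [abs_pow]; exact pow_le_pow_left₀ (abs_nonneg _) hX0 3
    have h1 : |(a : ℝ) * X0 ^ 3 + 3 * b * X0 ^ 2 + 3 * c * X0| ≤
        R * 1 ^ 3 + 3 * R * 1 ^ 2 + 3 * R * 1 :=
      aa (aa (am ha hX3) (am (am h3 hb) hX2)) (am (am h3 hc) hX0)
    have h2 := abs_le.mp hm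
    have h4 := abs_le.mp h1
    rw [abs_le]
    constructor <;> linarith [h2.1, h2.2, h4.1, h4.2]
  set Y := 22 * (R * w) with hY
  have hD := nrm_delta a b c m R Y hR hY0.le hY2 ha hb hc hm8
  have hP0 := nrm_ps0 a b c m R Y hR hY0.le hY2 ha hb hc hm8
  have hP1 := nrm_ps1 a b c m R Y hR hY0.le hY2 ha hb hc hm8
  have hK : |((2 * a * (a * c - b ^ 2) : ℤ) : ℝ)| ≤ 4 * R ^ 3 := by
    push_cast
    have hnum : ∀ x : ℝ, 0 ≤ x → |x| ≤ x := fun x hx => (abs_of_nonneg hx).le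
    have h2 : |(2 : ℝ)| ≤ 2 := hnum 2 (by norm_num)
    have hb2 : |(b : ℝ) ^ 2| ≤ R ^ 2 := by
      rw [abs_pow]; exact pow_le_pow_left₀ (abs_nonneg _) hb 2
    have h3 : |2 * (a : ℝ) * (a * c - b ^ 2)| ≤ 2 * R * (R * R + R ^ 2) :=
      am (am h2 ha) (as (am ha hc) hb2)
    refine h3.trans (le_of_eq ?_)
    ring
  have hi1 : 1 ≤ i := by omega
  induction l with
  | zero =>
    simp only [Function.iterate_zero, id_eq, pow_zero, one_mul, add_zero]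
    have h1 : nrm ((X : ℝ[X]) ^ n) Y ≤ Y ^ n := by
      have := nrm_le_eval (Maj.pow Maj.X n) hY0.le
      rwa [eval_pow, eval_X] at this
    have h0 : nrm (0 : ℝ[X]) Y = 0 := by simp [nrm]
    cases σ
    · simp only [mb, Bool.false_eq_true, if_false, Polynomial.map_pow, map_X, Polynomial.map_zero,
        natDegree_zero, h0, add_zero]
      exact ⟨h1, natDegree_X_pow_le n, Nat.zero_le _⟩
    · simp only [mb, if_true, Polynomial.map_pow, map_X, Polynomial.map_zero,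
        natDegree_zero, h0, zero_add]
      exact ⟨h1, Nat.zero_le _, natDegree_X_pow_le n⟩
  | succ l ih =>
    obtain ⟨ih1, ih2, ih3⟩ := ih (by omega)
    rw [Function.iterate_succ_apply']
    set g := (nab a b c m)^[l] (mb (n, σ)) with hg
    refine ⟨?_, ?_, ?_⟩
    · have hmU : (nab a b c m g).1.map (Int.castRingHom ℝ) =
          3 * (delta a b c m).map (Int.castRingHom ℝ) *
            derivative (g.1.map (Int.castRingHom ℝ)) -
          (ps0 a b c m).map (Int.castRingHom ℝ) * g.2.map (Int.castRingHom ℝ) := by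
        simp [nab, hatU, derivative_map]
      have hmV : (nab a b c m g).2.map (Int.castRingHom ℝ) =
          3 * (delta a b c m).map (Int.castRingHom ℝ) *
            derivative (g.2.map (Int.castRingHom ℝ)) -
          (ps1 a b c m).map (Int.castRingHom ℝ) * g.2.map (Int.castRingHom ℝ) +
          C (((2 * a * (a * c - b ^ 2) : ℤ) : ℝ)) * g.1.map (Int.castRingHom ℝ) := by
        simp [nab, hatV, derivative_map, map_ofNat]
      rw [hmU, hmV]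
      set u := g.1.map (Int.castRingHom ℝ) with hu
      set v := g.2.map (Int.castRingHom ℝ) with hv
      set δ := (delta a b c m).map (Int.castRingHom ℝ) with hδ
      set q0 := (ps0 a b c m).map (Int.castRingHom ℝ) with hq0
      set q1 := (ps1 a b c m).map (Int.castRingHom ℝ) with hq1
      have hud : u.natDegree ≤ n + l := (natDegree_map_le).trans ih2
      have hvd : v.natDegree ≤ n + l := (natDegree_map_le).trans ih3
      have hu0 := nrm_nonneg u hY0.le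
      have hv0 := nrm_nonneg v hY0.le
      have hδ0 := nrm_nonneg δ hY0.le
      have h3 : nrm (3 * δ) Y ≤ 3 * nrm δ Y := by
        refine (nrm_mul_le _ _ hY0.le).trans ?_
        apply mul_le_mul_of_nonneg_right _ hδ0
        have : nrm (C (3 : ℝ)) Y ≤ 3 := nrm_C_le _ hY0.le (by norm_num)
        rwa [map_ofNat] at this
      have top : ∀ p : ℝ[X], p.natDegree ≤ n + l →
          nrm (3 * δ * derivative p) Y ≤ 3 * nrm δ Y * (((n + l : ℕ) : ℝ) / Y * nrm p Y) := by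
        intro p hp
        refine (nrm_mul_le _ _ hY0.le).trans ?_
        exact mul_le_mul h3 (nrm_deriv_le p (n + l) hp hY0) (nrm_nonneg _ hY0.le) (by positivity)
      have hU : nrm (3 * δ * derivative u - q0 * v) Y ≤
          3 * nrm δ Y * (((n + l : ℕ) : ℝ) / Y * nrm u Y) + nrm q0 Y * nrm v Y :=
        (nrm_sub_le _ _ hY0.le).trans (add_le_add (top u hud) (nrm_mul_le _ _ hY0.le))
      have hV : nrm (3 * δ * derivative v - q1 * v + C (((2 * a * (a * c - b ^ 2) : ℤ) : ℝ)) * u) Y ≤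
          3 * nrm δ Y * (((n + l : ℕ) : ℝ) / Y * nrm v Y) + nrm q1 Y * nrm v Y +
            (4 * R ^ 3) * nrm u Y := by
        refine (nrm_add_le _ _ hY0.le).trans (add_le_add ?_ ?_)
        · exact (nrm_sub_le _ _ hY0.le).trans (add_le_add (top v hvd) (nrm_mul_le _ _ hY0.le))
        · refine (nrm_mul_le _ _ hY0.le).trans ?_
          exact mul_le_mul_of_nonneg_right (nrm_C_le _ hY0.le hK) hu0
      have hN : (((n + l : ℕ) : ℝ)) ≤ 2 * (i : ℝ) := by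
        have : n + l ≤ 2 * i := by omega
        exact_mod_cast this
      have har := arith R w i ((n + l : ℕ) : ℝ) Y (nrm δ Y) (nrm q0 Y) (nrm q1 Y) (4 * R ^ 3)
        (nrm u Y) (nrm v Y) hR hw0 hw1 (by exact_mod_cast hi1) (Nat.cast_nonneg _) hN hY hD
        hP0 hP1 le_rfl hu0 hv0
      refine (add_le_add hU hV).trans (har.trans ?_)
      have e : (1000 * R ^ 4 * (i : ℝ) / w) ^ (l + 1) * Y ^ n =
          (1000 * R ^ 4 * i / w) * ((1000 * R ^ 4 * i / w) ^ l * Y ^ n) := by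
        rw [pow_succ', mul_assoc]
      rw [e]
      exact mul_le_mul_of_nonneg_left ih1 (by positivity)
    · have := natDegree_hatU a b c m g (n + l) ih2 ih3
      exact this
    · have := natDegree_hatV a b c m g (n + l) ih2 ih3
      exact this

end Pool.Agent.Work.MP_f2148a_nt.Exp
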