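import Mathlib
import Pool.Agent.Work.MP_f2148a_nt.Exp3.Defs3

set_option autoImplicit false

namespace Pool.Agent.Work.MP_f2148a_nt.Exp

open Polynomial

/-- Module Top3, first part. -/
theorem wpol_nab (a b c m : ℤ) (X0 : ℝ) (f : ℤ[X] × ℤ[X]) :
    wpol a b c m X0 (nab a b c m f) = Top a b c X0 (wpol a b c m X0 f) := by
  obtain ⟨ρ, hρ⟩ : ∃ ρ : ℝ[X], ρ = C X0 + X := ⟨_, rfl⟩
  obtain ⟨D, hD⟩ : ∃ D : ℝ[X], D = dpol a b c m X0 := ⟨_, rfl⟩
  have hρ' : derivative ρ = 1 := by rw [hρ]; simp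
  have hDe : D = -(C (a : ℝ) * ρ ^ 3 + 3 * C (b : ℝ) * ρ ^ 2 + 3 * C (c : ℝ) * ρ) - C (m : ℝ) := by
    rw [hD, hρ]; rfl
  have hD' : derivative D = -3 * (C (a : ℝ) * ρ ^ 2 + 2 * C (b : ℝ) * ρ + C (c : ℝ)) := by
    rw [hDe]
    simp only [derivative_sub, derivative_neg, derivative_add, derivative_mul, derivative_C,
      derivative_pow, derivative_ofNat, hρ']
    simp only [Nat.cast_ofNat, map_ofNat, Nat.add_one_sub_one, pow_one]
    ring
  obtain ⟨U, hU⟩ : ∃ U : ℝ[X], U = f.1.map (Int.castRingHom ℝ) := ⟨_, rfl⟩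
  obtain ⟨V, hV⟩ : ∃ V : ℝ[X], V = f.2.map (Int.castRingHom ℝ) := ⟨_, rfl⟩
  have e1 : ((hatU a b c m f).map (Int.castRingHom ℝ)).comp D =
      3 * (C (a : ℝ) ^ 2 * (D + C (m : ℝ)) ^ 2 +
        (4 * C (b : ℝ) ^ 3 - 6 * C (a : ℝ) * C (b : ℝ) * C (c : ℝ)) * (D + C (m : ℝ)) +
        (4 * C (a : ℝ) * C (c : ℝ) ^ 3 - 3 * C (b : ℝ) ^ 2 * C (c : ℝ) ^ 2)) *
        ((derivative U).comp D) -
      ((4 * C (a : ℝ) * C (c : ℝ) ^ 2 - 3 * C (b : ℝ) ^ 2 * C (c : ℝ)) -
        C (a : ℝ) * C (b : ℝ) * (D + C (m : ℝ))) * V.comp D := by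
    rw [hU, hV]
    simp only [hatU, delta, ps0, Polynomial.map_sub, Polynomial.map_mul, Polynomial.map_add,
      Polynomial.map_pow, Polynomial.map_C, Polynomial.map_X, Polynomial.map_ofNat, sub_comp,
      mul_comp, add_comp, pow_comp, C_comp, X_comp, ofNat_comp, derivative_map,
      eq_intCast (Int.castRingHom ℝ)]
    push_cast
    simp only [map_sub, map_mul, map_pow, map_ofNat]
  have e2 : ((hatV a b c m f).map (Int.castRingHom ℝ)).comp D =
      3 * (C (a : ℝ) ^ 2 * (D + C (m : ℝ)) ^ 2 +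
        (4 * C (b : ℝ) ^ 3 - 6 * C (a : ℝ) * C (b : ℝ) * C (c : ℝ)) * (D + C (m : ℝ)) +
        (4 * C (a : ℝ) * C (c : ℝ) ^ 3 - 3 * C (b : ℝ) ^ 2 * C (c : ℝ) ^ 2)) *
        ((derivative V).comp D) -
      ((7 * C (a : ℝ) * C (b : ℝ) * C (c : ℝ) - 6 * C (b : ℝ) ^ 3) -
        C (a : ℝ) ^ 2 * (D + C (m : ℝ))) * V.comp D +
      2 * C (a : ℝ) * (C (a : ℝ) * C (c : ℝ) - C (b : ℝ) ^ 2) * U.comp D := by
    rw [hU, hV]
    simp only [hatV, delta, ps1, Polynomial.map_sub, Polynomial.map_mul, Polynomial.map_add,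
      Polynomial.map_pow, Polynomial.map_C, Polynomial.map_X, Polynomial.map_ofNat, sub_comp,
      mul_comp, add_comp, pow_comp, C_comp, X_comp, ofNat_comp, derivative_map,
      eq_intCast (Int.castRingHom ℝ)]
    push_cast
    simp only [map_sub, map_mul, map_pow, map_ofNat]
  have e3 : wpol a b c m X0 (nab a b c m f) =
      ((hatU a b c m f).map (Int.castRingHom ℝ)).comp D +
        ρ * ((hatV a b c m f).map (Int.castRingHom ℝ)).comp D := by
    rw [hD, hρ]; rfl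
  have e4 : wpol a b c m X0 f = U.comp D + ρ * V.comp D := by
    rw [hD, hρ, hU, hV]; rfl
  have e5 : derivative (wpol a b c m X0 f) =
      derivative D * (derivative U).comp D + (V.comp D + ρ * (derivative D * (derivative V).comp D)) := by
    rw [e4, derivative_add, derivative_mul, derivative_comp, derivative_comp, hρ', one_mul]
  have e6 : Top a b c X0 (wpol a b c m X0 f) =
      -((C (a : ℝ) * ρ ^ 2 + 2 * C (b : ℝ) * ρ + C (c : ℝ)) *
        ((C (a : ℝ) * ρ + C (b : ℝ)) ^ 2 + 4 * (C (a : ℝ) * C (c : ℝ) - C (b : ℝ) ^ 2))) *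
        (derivative D * (derivative U).comp D +
          (V.comp D + ρ * (derivative D * (derivative V).comp D))) +
      2 * C (a : ℝ) * (C (a : ℝ) * C (c : ℝ) - C (b : ℝ) ^ 2) * ρ * (U.comp D + ρ * V.comp D) := by
    rw [← e5, ← e4, hρ]; rfl
  rw [e3, e1, e2, e6, hD']
  have hXm : D + C (m : ℝ) =
      -(C (a : ℝ) * ρ ^ 3 + 3 * C (b : ℝ) * ρ ^ 2 + 3 * C (c : ℝ) * ρ) := by rw [hDe]; ring
  rw [hXm]
  generalize U.comp D = u
  generalize V.comp D = v
  generalize (derivative U).comp D = u'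
  generalize (derivative V).comp D = v'
  generalize C (a : ℝ) = A
  generalize C (b : ℝ) = B
  generalize C (c : ℝ) = G
  ring

/-- Module Top3, second part. -/
theorem wpol_nab_iter (a b c m : ℤ) (X0 : ℝ) (f : ℤ[X] × ℤ[X]) (l : ℕ) :
    wpol a b c m X0 ((nab a b c m)^[l] f) = (Top a b c X0)^[l] (wpol a b c m X0 f) := by
  induction l with
  | zero => rfl
  | succ l ih => rw [Function.iterate_succ_apply', Function.iterate_succ_apply', wpol_nab, ih]

private theorem top_add (a b c : ℤ) (X0 : ℝ) (v w : ℝ[X]) :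
    Top a b c X0 (v + w) = Top a b c X0 v + Top a b c X0 w := by
  unfold Top
  rw [derivative_add]
  ring

private theorem top_smul (a b c : ℤ) (X0 : ℝ) (t : ℝ) (w : ℝ[X]) :
    Top a b c X0 (C t * w) = C t * Top a b c X0 w := by
  unfold Top
  rw [derivative_C_mul]
  ring

private theorem top_iter_add (a b c : ℤ) (X0 : ℝ) (l : ℕ) (v w : ℝ[X]) :
    (Top a b c X0)^[l] (v + w) = (Top a b c X0)^[l] v + (Top a b c X0)^[l] w := by
  induction l with
  | zero => rfl
  | succ l ih =>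
    rw [Function.iterate_succ_apply', Function.iterate_succ_apply', Function.iterate_succ_apply',
      ih, top_add]

private theorem top_iter_smul (a b c : ℤ) (X0 : ℝ) (l : ℕ) (t : ℝ) (w : ℝ[X]) :
    (Top a b c X0)^[l] (C t * w) = C t * (Top a b c X0)^[l] w := by
  induction l with
  | zero => rfl
  | succ l ih =>
    rw [Function.iterate_succ_apply', Function.iterate_succ_apply', ih, top_smul]

private theorem top_iter_sum (a b c : ℤ) (X0 : ℝ) (l : ℕ) (N : ℕ) (g : ℕ → ℝ[X]) :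
    (Top a b c X0)^[l] (∑ k ∈ Finset.range N, g k) =
      ∑ k ∈ Finset.range N, (Top a b c X0)^[l] (g k) := by
  induction N with
  | zero =>
    rw [Finset.sum_range_zero, Finset.sum_range_zero]
    have h := top_iter_smul a b c X0 l 0 0
    rw [C_0, zero_mul, zero_mul] at h
    exact h
  | succ N ih => rw [Finset.sum_range_succ, Finset.sum_range_succ, top_iter_add, ih]

/-- Module Top3, third part. -/
theorem sum_yl (a b c p r : ℤ) (X0 : ℝ) (l : ℕ) (w : ℝ[X]) (N : ℕ) (hN : w.natDegree < N) :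
    ∑ k ∈ Finset.range N, w.coeff k * yl a b c p r X0 l k =
      r * ((Top a b c X0)^[l] w).eval ((p : ℝ) / r - X0) := by
  have h1 : w = ∑ k ∈ Finset.range N, C (w.coeff k) * X ^ k := as_sum_range_C_mul_X_pow' w hN
  have h2 : (Top a b c X0)^[l] w =
      ∑ k ∈ Finset.range N, C (w.coeff k) * (Top a b c X0)^[l] (X ^ k) := by
    conv_lhs => rw [h1]
    rw [top_iter_sum]
    exact Finset.sum_congr rfl fun k _ => top_iter_smul a b c X0 l _ _
  rw [h2, eval_finsetSum, Finset.mul_sum]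
  refine Finset.sum_congr rfl fun k _ => ?_
  rw [eval_mul, eval_C, yl]
  ring

end Pool.Agent.Work.MP_f2148a_nt.Exp
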