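import Mathlib
import Pool.Agent.Work.MP_f2148a_nt.Exp3.Defs3
import Pool.Agent.Work.MP_f2148a_nt.Exp.WBound
import Pool.Agent.Work.MP_f2148a_nt.Exp.NHat

set_option autoImplicit false

namespace Pool.Agent.Work.MP_f2148a_nt.Exp

open Polynomial NHatAux

/-- the polynomial of the absolute values of the coefficients -/
private noncomputable def abp (w : ℝ[X]) : ℝ[X] := ∑ k ∈ w.support, C |w.coeff k| * X ^ k

private theorem maj_abp (w : ℝ[X]) : Maj w (abp w) := by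
  intro k
  unfold abp
  rw [finsetSum_coeff]
  simp only [coeff_C_mul_X_pow]
  by_cases hk : k ∈ w.support
  · rw [Finset.sum_eq_single k]
    · simp
    · intro j _ hj
      rw [if_neg (Ne.symm hj)]
    · exact fun h => absurd hk h
  · rw [notMem_support_iff.1 hk, abs_zero]
    apply Finset.sum_nonneg
    intro j _
    split_ifs
    · exact abs_nonneg _
    · exact le_rfl

private theorem eval_abp (w : ℝ[X]) (ρ : ℝ) : (abp w).eval ρ = nrm w ρ := by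
  unfold abp nrm
  rw [eval_finsetSum]
  refine Finset.sum_congr rfl fun k _ => ?_
  rw [eval_mul, eval_C, eval_pow, eval_X]

private theorem nrm_nonneg (w : ℝ[X]) {ρ : ℝ} (hρ : 0 ≤ ρ) : 0 ≤ nrm w ρ :=
  Finset.sum_nonneg fun _ _ => mul_nonneg (abs_nonneg _) (pow_nonneg hρ _)

private theorem nrm_add_le3 (v w : ℝ[X]) {ρ : ℝ} (hρ : 0 ≤ ρ) :
    nrm (v + w) ρ ≤ nrm v ρ + nrm w ρ := by
  have h := nrm_le_eval ((maj_abp v).add (maj_abp w)) hρ
  rwa [eval_add, eval_abp, eval_abp] at h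

private theorem nrm_mul_le3 (v w : ℝ[X]) {ρ : ℝ} (hρ : 0 ≤ ρ) :
    nrm (v * w) ρ ≤ nrm v ρ * nrm w ρ := by
  have h := nrm_le_eval ((maj_abp v).mul (maj_abp w)) hρ
  rwa [eval_mul, eval_abp, eval_abp] at h

private theorem nrm_range (w : ℝ[X]) (ρ : ℝ) (M : ℕ) (hM : w.natDegree < M) :
    nrm w ρ = ∑ k ∈ Finset.range M, |w.coeff k| * ρ ^ k := by
  unfold nrm
  apply Finset.sum_subset
  · intro k hk
    have := le_natDegree_of_mem_supp k hk
    rw [Finset.mem_range]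
    omega
  · intro k _ hk
    rw [notMem_support_iff.1 hk, abs_zero, zero_mul]

private theorem nrm_deriv_le3 (w : ℝ[X]) {ρ : ℝ} (hρ : 0 ≤ ρ) (N : ℕ) (hN : w.natDegree ≤ N) :
    nrm (derivative w) ρ * ρ ≤ N * nrm w ρ := by
  have hd : (derivative w).natDegree < N + 1 :=
    lt_of_le_of_lt ((natDegree_derivative_le w).trans (Nat.sub_le _ _)) (by omega)
  rw [nrm_range (derivative w) ρ (N + 1) hd, nrm_range w ρ (N + 1 + 1) (by omega),
    Finset.sum_range_succ' _ (N + 1), Finset.sum_mul, mul_add, Finset.mul_sum]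
  have h0 : 0 ≤ (N : ℝ) * (|w.coeff 0| * ρ ^ 0) := by positivity
  refine le_trans (Finset.sum_le_sum fun k _ => ?_) (le_add_of_nonneg_right h0)
  rw [coeff_derivative]
  by_cases hk : k + 1 ≤ N
  · have h1 : ((k : ℝ) + 1) ≤ N := by exact_mod_cast hk
    have h2 : 0 ≤ |w.coeff (k + 1)| * ρ ^ (k + 1) := by positivity
    have h3 : |w.coeff (k + 1) * ((k : ℝ) + 1)| * ρ ^ k * ρ =
        ((k : ℝ) + 1) * (|w.coeff (k + 1)| * ρ ^ (k + 1)) := by
      rw [abs_mul, abs_of_nonneg (by positivity : (0 : ℝ) ≤ (k : ℝ) + 1), pow_succ]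
      ring
    rw [h3]
    exact mul_le_mul_of_nonneg_right h1 h2
  · have h4 : w.coeff (k + 1) = 0 := coeff_eq_zero_of_natDegree_lt (by omega)
    rw [h4, zero_mul, abs_zero, zero_mul, zero_mul, zero_mul, mul_zero]

private theorem nrm_spol (a b c : ℤ) (X0 R w : ℝ) (hX0 : |X0| ≤ 1) (hR : 1 ≤ R)
    (ha : |(a : ℝ)| ≤ R) (hb : |(b : ℝ)| ≤ R) (hc : |(c : ℝ)| ≤ R) (hw0 : 0 < w) (hw1 : w ≤ 1) :
    nrm (spol a b c X0) w ≤ 153 * R ^ 3 := by
  have hρ : Maj (C X0 + X) (C 1 + X) := (Maj.const hX0).add Maj.X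
  have h2 : Maj (2 : ℝ[X]) (C 2) := by
    have := Maj.const (c := 2) (C' := 2) (by norm_num)
    exact this
  have h4 : Maj (4 : ℝ[X]) (C 4) := by
    have := Maj.const (c := 4) (C' := 4) (by norm_num)
    exact this
  have hs : Maj (spol a b c X0)
      ((C R * (C 1 + X) ^ 2 + C 2 * C R * (C 1 + X) + C R) *
        ((C R * (C 1 + X) + C R) ^ 2 + C 4 * (C R * C R + C R ^ 2))) := by
    unfold spol
    refine (((((Maj.const ha).mul (hρ.pow 2))).add ((h2.mul (Maj.const hb)).mul hρ)).add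
      (Maj.const hc)).mul ?_
    refine ((((Maj.const ha).mul hρ).add (Maj.const hb)).pow 2).add (h4.mul ?_)
    rw [sub_eq_add_neg]
    exact ((Maj.const ha).mul (Maj.const hc)).add ((Maj.const hb).pow 2).neg
  refine (nrm_le_eval hs hw0.le).trans ?_
  simp only [eval_add, eval_mul, eval_C, eval_X, eval_pow]
  have hR0 : 0 ≤ R := by linarith
  have h5 : R * (1 + w) ^ 2 + 2 * R * (1 + w) + R ≤ 9 * R := by
    have e1 : (1 + w) ^ 2 ≤ 4 := by nlinarith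
    have e2 : R * (1 + w) ^ 2 ≤ R * 4 := mul_le_mul_of_nonneg_left e1 hR0
    have e3 : R * (1 + w) ≤ R * 2 := mul_le_mul_of_nonneg_left (by linarith) hR0
    linarith
  have h6 : (R * (1 + w) + R) ^ 2 + 4 * (R * R + R ^ 2) ≤ 17 * R ^ 2 := by
    have h7 : R * (1 + w) + R ≤ 3 * R := by nlinarith
    have h8 : 0 ≤ R * (1 + w) + R := by positivity
    nlinarith
  have h9 : 0 ≤ (R * (1 + w) + R) ^ 2 + 4 * (R * R + R ^ 2) := by positivity
  calc (R * (1 + w) ^ 2 + 2 * R * (1 + w) + R) * ((R * (1 + w) + R) ^ 2 + 4 * (R * R + R ^ 2))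
      ≤ (9 * R) * (17 * R ^ 2) := mul_le_mul h5 h6 h9 (by positivity)
    _ = 153 * R ^ 3 := by ring

private theorem nrm_tpol (a b c : ℤ) (X0 R w : ℝ) (hX0 : |X0| ≤ 1) (hR : 1 ≤ R)
    (ha : |(a : ℝ)| ≤ R) (hb : |(b : ℝ)| ≤ R) (hc : |(c : ℝ)| ≤ R) (hw0 : 0 < w) (hw1 : w ≤ 1) :
    nrm (2 * C (a : ℝ) * (C (a : ℝ) * C (c : ℝ) - C (b : ℝ) ^ 2) * (C X0 + X)) w ≤
      8 * R ^ 3 := by
  have hρ : Maj (C X0 + X) (C 1 + X) := (Maj.const hX0).add Maj.X
  have h2 : Maj (2 : ℝ[X]) (C 2) := by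
    have := Maj.const (c := 2) (C' := 2) (by norm_num)
    exact this
  have hs : Maj (2 * C (a : ℝ) * (C (a : ℝ) * C (c : ℝ) - C (b : ℝ) ^ 2) * (C X0 + X))
      (C 2 * C R * (C R * C R + C R ^ 2) * (C 1 + X)) := by
    refine ((h2.mul (Maj.const ha)).mul ?_).mul hρ
    rw [sub_eq_add_neg]
    exact ((Maj.const ha).mul (Maj.const hc)).add ((Maj.const hb).pow 2).neg
  refine (nrm_le_eval hs hw0.le).trans ?_
  simp only [eval_add, eval_mul, eval_C, eval_X, eval_pow]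
  have h3 : 2 * R * (R * R + R ^ 2) * (1 + w) ≤ 2 * R * (R * R + R ^ 2) * 2 :=
    mul_le_mul_of_nonneg_left (by linarith) (by positivity)
  refine h3.trans (le_of_eq ?_)
  ring

private theorem deg_top (a b c : ℤ) (X0 : ℝ) (g : ℝ[X]) :
    (Top a b c X0 g).natDegree ≤ g.natDegree + 3 := by
  have h1 : (spol a b c X0).natDegree ≤ 4 := by
    unfold spol
    compute_degree
  have h2 : (2 * C (a : ℝ) * (C (a : ℝ) * C (c : ℝ) - C (b : ℝ) ^ 2) *
      (C X0 + X)).natDegree ≤ 1 := by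
    compute_degree
  unfold Top
  refine (natDegree_add_le _ _).trans (max_le ?_ ?_)
  · rcases Nat.eq_zero_or_pos g.natDegree with h0 | h0
    · rw [derivative_of_natDegree_zero h0, mul_zero, natDegree_zero]
      omega
    · refine natDegree_mul_le.trans ?_
      rw [natDegree_neg]
      have := natDegree_derivative_lt h0.ne'
      omega
  · refine natDegree_mul_le.trans ?_
    omega

private theorem nrm_top (a b c : ℤ) (X0 R w : ℝ) (hX0 : |X0| ≤ 1) (hR : 1 ≤ R)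
    (ha : |(a : ℝ)| ≤ R) (hb : |(b : ℝ)| ≤ R) (hc : |(c : ℝ)| ≤ R) (hw0 : 0 < w) (hw1 : w ≤ 1)
    (i : ℕ) (hi : 1 ≤ i) (g : ℝ[X]) (hg : g.natDegree ≤ 6 * i) :
    nrm (Top a b c X0 g) w ≤ (1000 * R ^ 4 * i / w) * nrm g w := by
  have hi' : (1 : ℝ) ≤ i := by exact_mod_cast hi
  have hs := nrm_spol a b c X0 R w hX0 hR ha hb hc hw0 hw1
  have ht := nrm_tpol a b c X0 R w hX0 hR ha hb hc hw0 hw1
  have hd := nrm_deriv_le3 g hw0.le (6 * i) hg
  have hn := nrm_nonneg g hw0.le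
  have hdn := nrm_nonneg (derivative g) hw0.le
  have hsn : nrm (-spol a b c X0) w = nrm (spol a b c X0) w := by
    unfold nrm
    rw [support_neg]
    refine Finset.sum_congr rfl fun k _ => ?_
    rw [coeff_neg, abs_neg]
  have hd' : nrm (derivative g) w ≤ 6 * i * nrm g w / w := by
    rw [le_div_iff₀ hw0]
    push_cast at hd
    exact hd
  unfold Top
  refine (nrm_add_le3 _ _ hw0.le).trans ?_
  have h1 : nrm (-spol a b c X0 * derivative g) w ≤ (153 * R ^ 3) * (6 * i * nrm g w / w) := by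
    refine (nrm_mul_le3 _ _ hw0.le).trans ?_
    rw [hsn]
    exact mul_le_mul hs hd' hdn (by positivity)
  have h2 : nrm (2 * C (a : ℝ) * (C (a : ℝ) * C (c : ℝ) - C (b : ℝ) ^ 2) * (C X0 + X) * g) w ≤
      (8 * R ^ 3) * nrm g w := by
    refine (nrm_mul_le3 _ _ hw0.le).trans ?_
    exact mul_le_mul_of_nonneg_right ht hn
  refine (add_le_add h1 h2).trans ?_
  obtain ⟨q, hq⟩ : ∃ q : ℝ, q = nrm g w / w := ⟨_, rfl⟩
  have hq0 : 0 ≤ q := by rw [hq]; positivity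
  have hgq : nrm g w ≤ q := by
    rw [hq, le_div_iff₀ hw0]
    exact mul_le_of_le_one_right hn hw1
  have e1 : (153 * R ^ 3) * (6 * i * nrm g w / w) = 918 * (R ^ 3 * i * q) := by
    rw [hq]; ring
  have e2 : (1000 * R ^ 4 * i / w) * nrm g w = 1000 * (R * (R ^ 3 * i * q)) := by
    rw [hq]; ring
  rw [e1, e2]
  have h3 : (8 * R ^ 3) * nrm g w ≤ 8 * (R ^ 3 * i * q) := by
    have h4 : nrm g w ≤ i * q := hgq.trans (le_mul_of_one_le_left hq0 hi')
    have h5 : (8 * R ^ 3) * nrm g w ≤ (8 * R ^ 3) * (i * q) :=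
      mul_le_mul_of_nonneg_left h4 (by positivity)
    refine h5.trans (le_of_eq ?_)
    ring
  have h6 : 0 ≤ R ^ 3 * i * q := by positivity
  have h7 : R ^ 3 * i * q ≤ R * (R ^ 3 * i * q) := le_mul_of_one_le_left h6 hR
  linarith

private theorem nrm_top_iter (a b c : ℤ) (X0 R w : ℝ) (hX0 : |X0| ≤ 1) (hR : 1 ≤ R)
    (ha : |(a : ℝ)| ≤ R) (hb : |(b : ℝ)| ≤ R) (hc : |(c : ℝ)| ≤ R) (hw0 : 0 < w) (hw1 : w ≤ 1)
    (i : ℕ) (hi : 1 ≤ i) (k : ℕ) (hk : k < 3 * i + 1) (l : ℕ) (hl : l ≤ i) :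
    ((Top a b c X0)^[l] (X ^ k)).natDegree ≤ k + 3 * l ∧
      nrm ((Top a b c X0)^[l] (X ^ k)) w ≤ (1000 * R ^ 4 * i / w) ^ l * w ^ k := by
  induction l with
  | zero =>
    refine ⟨by simp, ?_⟩
    rw [Function.iterate_zero, id, pow_zero, one_mul]
    have h := nrm_le_eval (Maj.X.pow k) hw0.le
    rwa [eval_pow, eval_X] at h
  | succ l ih =>
    obtain ⟨h1, h2⟩ := ih (by omega)
    rw [Function.iterate_succ_apply']
    refine ⟨(deg_top a b c X0 _).trans (by omega), ?_⟩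
    refine (nrm_top a b c X0 R w hX0 hR ha hb hc hw0 hw1 i hi _ (by omega)).trans ?_
    rw [pow_succ' (1000 * R ^ 4 * (i:ℝ) / w) l]
    have h3 : 0 ≤ 1000 * R ^ 4 * i / w := by positivity
    calc 1000 * R ^ 4 * i / w * nrm ((Top a b c X0)^[l] (X ^ k)) w
        ≤ 1000 * R ^ 4 * i / w * ((1000 * R ^ 4 * i / w) ^ l * w ^ k) :=
          mul_le_mul_of_nonneg_left h2 h3
      _ = 1000 * R ^ 4 * i / w * (1000 * R ^ 4 * i / w) ^ l * w ^ k := by ring

/-- Module TopBd3. -/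
theorem yl_le (a b c p r : ℤ) (X0 R w Q2 : ℝ) (hX0 : |X0| ≤ 1) (hR : 1 ≤ R)
    (ha : |(a : ℝ)| ≤ R) (hb : |(b : ℝ)| ≤ R) (hc : |(c : ℝ)| ≤ R) (hw0 : 0 < w) (hw1 : w ≤ 1)
    (i : ℕ) (hi : 1 ≤ i) (hr0 : 1 ≤ (r : ℝ)) (hr2 : (r : ℝ) ≤ Q2)
    (hp : |(p : ℝ) / r - X0| ≤ w) (l k : ℕ) (hl : l ≤ i) (hk : k < 3 * i + 1) :
    |yl a b c p r X0 l k| ≤ Q2 * (1000 * R ^ 4 * i / w) ^ l * w ^ k := by
  have h := (nrm_top_iter a b c X0 R w hX0 hR ha hb hc hw0 hw1 i hi k hk l hl).2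
  have h1 := (abs_eval_le_nrm ((Top a b c X0)^[l] (X ^ k)) w _ hp).trans h
  unfold yl
  rw [abs_mul, mul_assoc]
  have hr : |(r : ℝ)| ≤ Q2 := by
    rw [abs_of_nonneg (by linarith)]
    exact hr2
  exact mul_le_mul hr h1 (abs_nonneg _) (by linarith)

end Pool.Agent.Work.MP_f2148a_nt.Exp
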