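import Mathlib
import Pool.Agent.Work.MP_f2148a_nt.Exp.WBound
import Pool.Agent.Work.MP_f2148a_nt.Exp.NHat
import Pool.Agent.Work.MP_f2148a_nt.Exp3.Top3
import Pool.Agent.Work.MP_f2148a_nt.Exp3.TopBd3
import Pool.Agent.Work.MP_f2148a_nt.Exp3.MbCoeff3
import Pool.Agent.Work.MP_f2148a_nt.Exp3.NabBd3

set_option autoImplicit false

namespace Pool.Agent.Work.MP_f2148a_nt.Exp

open Polynomial NHatAux

/-- Module Entry3 (from the modules above). -/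
theorem entry_term3 (a b c m p r : ℤ) (X0 R w Q2 : ℝ) (hX0 : |X0| ≤ 1) (hR : 1 ≤ R)
    (ha : |(a : ℝ)| ≤ R) (hb : |(b : ℝ)| ≤ R) (hc : |(c : ℝ)| ≤ R) (hw0 : 0 < w) (hw1 : w ≤ 1)
    (hm : |-((a : ℝ) * X0 ^ 3 + 3 * b * X0 ^ 2 + 3 * c * X0) - m| ≤ 1 / 2)
    (hRw : 1 ≤ R * w) (i : ℕ) (hr0 : 1 ≤ (r : ℝ)) (hr2 : (r : ℝ) ≤ Q2)
    (hp : |(p : ℝ) / r - X0| ≤ w) (l : ℕ) (hl : l ≤ i) (n : ℕ) (hn : n < i) (σ : Bool) (k : ℕ)
    (hk : k < 3 * i + 1) :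
    |(wpol a b c m X0 (mb (n, σ))).coeff k * yl a b c p r X0 l k| ≤
      (1000 * R ^ 4 * i / w) ^ l * ((4 * i * Q2) * (22 * (R * w)) ^ n * w ^ (k - n)) := by
  have hi1 : 1 ≤ i := by omega
  have hi1' : (1 : ℝ) ≤ i := by exact_mod_cast hi1
  have hco := mb_coeff a b c m X0 R w hX0 hR ha hb hc hw0 hw1 hm hRw n σ k
  have hyl := yl_le a b c p r X0 R w Q2 hX0 hR ha hb hc hw0 hw1 i hi1 hr0 hr2 hp l k hl hk
  obtain ⟨Z, hZ⟩ : ∃ Z : ℝ, Z = (1000 * R ^ 4 * i / w) ^ l := ⟨_, rfl⟩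
  have hZ0 : 0 ≤ Z := by rw [hZ]; positivity
  have hQ2 : 1 ≤ Q2 := hr0.trans hr2
  rw [← hZ] at hyl ⊢
  rw [abs_mul]
  calc |(wpol a b c m X0 (mb (n, σ))).coeff k| * |yl a b c p r X0 l k|
      ≤ |(wpol a b c m X0 (mb (n, σ))).coeff k| * (Q2 * Z * w ^ k) :=
        mul_le_mul_of_nonneg_left hyl (abs_nonneg _)
    _ = (|(wpol a b c m X0 (mb (n, σ))).coeff k| * w ^ k) * (Q2 * Z) := by ring
    _ ≤ (2 * (22 * (R * w)) ^ n * w ^ (k - n)) * (Q2 * Z) :=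
        mul_le_mul_of_nonneg_right hco (by positivity)
    _ = Z * ((2 * Q2) * ((22 * (R * w)) ^ n * w ^ (k - n))) := by ring
    _ ≤ Z * ((4 * i * Q2) * ((22 * (R * w)) ^ n * w ^ (k - n))) := by
        apply mul_le_mul_of_nonneg_left _ hZ0
        apply mul_le_mul_of_nonneg_right _ (by positivity)
        nlinarith
    _ = _ := by ring

private theorem entry3_lip (g : ℝ[X]) (Y x y : ℝ) (N : ℕ) (hY : 1 ≤ Y) (hx : |x| ≤ Y)
    (hy : |y| ≤ Y) (hN : g.natDegree ≤ N) :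
    |g.eval x - g.eval y| ≤ |x - y| * ((N : ℝ) / Y * nrm g Y) := by
  have hY0 : 0 < Y := by linarith
  rw [eval_eq_sum, eval_eq_sum, sum_def, sum_def, ← Finset.sum_sub_distrib, nrm, Finset.mul_sum,
    Finset.mul_sum]
  refine (Finset.abs_sum_le_sum_abs _ _).trans (Finset.sum_le_sum ?_)
  intro k hk
  have hkN : (k : ℝ) ≤ N := by
    exact_mod_cast (le_natDegree_of_mem_supp k hk).trans hN
  rw [← mul_sub, abs_mul]
  have h1 : |x ^ k - y ^ k| ≤ |x - y| * (N / Y * Y ^ k) := by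
    rcases Nat.eq_zero_or_pos k with h0 | h0
    · rw [h0, pow_zero, pow_zero, sub_self, abs_zero]
      positivity
    · refine (abs_pow_sub_pow_le x y k).trans ?_
      rw [mul_assoc]
      apply mul_le_mul_of_nonneg_left _ (abs_nonneg _)
      have h2 : max |x| |y| ^ (k - 1) ≤ Y ^ (k - 1) :=
        pow_le_pow_left₀ (le_max_of_le_left (abs_nonneg _)) (max_le hx hy) _
      have h3 : Y ^ k = Y ^ (k - 1) * Y := by
        rw [← pow_succ]; congr 1; omega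
      calc (k : ℝ) * max |x| |y| ^ (k - 1) ≤ N * Y ^ (k - 1) :=
            mul_le_mul hkN h2 (pow_nonneg (le_max_of_le_left (abs_nonneg _)) _)
              (Nat.cast_nonneg _)
        _ = N / Y * Y ^ k := by rw [h3]; field_simp
  calc |g.coeff k| * |x ^ k - y ^ k| ≤ |g.coeff k| * (|x - y| * (N / Y * Y ^ k)) :=
        mul_le_mul_of_nonneg_left h1 (abs_nonneg _)
    _ = |x - y| * (N / Y * (|g.coeff k| * Y ^ k)) := by ring

private theorem entry3_cast (q : ℤ[X]) (D m : ℤ) :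
    ((q.eval (D - m) : ℤ) : ℝ) = (q.map (Int.castRingHom ℝ)).eval ((D : ℝ) - m) := by
  rw [cast_eval]
  push_cast
  rfl

private theorem entry3_dpol_eval (a b c m : ℤ) (X0 ρ : ℝ) :
    (dpol a b c m X0).eval (ρ - X0) = -(a * ρ ^ 3 + 3 * b * ρ ^ 2 + 3 * c * ρ) - m := by
  unfold dpol
  simp only [eval_sub, eval_neg, eval_add, eval_mul, eval_pow, eval_C, eval_X, eval_ofNat]
  ring

private theorem entry3_wpol_eval (a b c m : ℤ) (X0 ρ : ℝ) (f : ℤ[X] × ℤ[X]) :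
    (wpol a b c m X0 f).eval (ρ - X0) =
      (f.1.map (Int.castRingHom ℝ)).eval
        (-(a * ρ ^ 3 + 3 * b * ρ ^ 2 + 3 * c * ρ) - m) +
      ρ * (f.2.map (Int.castRingHom ℝ)).eval
        (-(a * ρ ^ 3 + 3 * b * ρ ^ 2 + 3 * c * ρ) - m) := by
  unfold wpol
  rw [eval_add, eval_mul, eval_comp, eval_comp, entry3_dpol_eval, eval_add, eval_C, eval_X]
  ring

private theorem entry3_dbound (a b c m : ℤ) (X0 R ρ w : ℝ) (hX0 : |X0| ≤ 1) (hR : 1 ≤ R)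
    (ha : |(a : ℝ)| ≤ R) (hb : |(b : ℝ)| ≤ R) (hc : |(c : ℝ)| ≤ R) (hw1 : w ≤ 1)
    (hm : |-((a : ℝ) * X0 ^ 3 + 3 * b * X0 ^ 2 + 3 * c * X0) - m| ≤ 1 / 2)
    (hRw : 1 ≤ R * w) (hp : |ρ - X0| ≤ w) :
    |-((a : ℝ) * ρ ^ 3 + 3 * b * ρ ^ 2 + 3 * c * ρ) - m| ≤ 21 * (R * w) - 1 := by
  obtain ⟨ξ, hξ⟩ : ∃ ξ : ℝ, ξ = ρ - X0 := ⟨_, rfl⟩
  rw [← hξ] at hp
  have e : -((a : ℝ) * ρ ^ 3 + 3 * b * ρ ^ 2 + 3 * c * ρ) - m =
      (-((a : ℝ) * X0 ^ 3 + 3 * b * X0 ^ 2 + 3 * c * X0) - m) -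
      ((3 * (a * X0 ^ 2) + 6 * (b * X0) + 3 * c) * ξ + (3 * (a * X0) + 3 * b) * ξ ^ 2 +
        a * ξ ^ 3) := by
    have : ρ = X0 + ξ := by rw [hξ]; ring
    rw [this]; ring
  rw [e]
  have hw0 : 0 ≤ w := (abs_nonneg _).trans hp
  have hX2 : |X0 ^ 2| ≤ 1 := by
    rw [abs_pow]; exact pow_le_one₀ (abs_nonneg _) hX0
  have h3 : |(3 : ℝ)| ≤ 3 := by norm_num
  have h6 : |(6 : ℝ)| ≤ 6 := by norm_num
  have x2 : |ξ ^ 2| ≤ w := by
    rw [abs_pow]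
    calc |ξ| ^ 2 ≤ w ^ 2 := pow_le_pow_left₀ (abs_nonneg _) hp 2
      _ ≤ w := by nlinarith
  have x3 : |ξ ^ 3| ≤ w := by
    rw [abs_pow]
    calc |ξ| ^ 3 ≤ w ^ 3 := pow_le_pow_left₀ (abs_nonneg _) hp 3
      _ ≤ w := by
        have : w ^ 3 = w * w ^ 2 := by ring
        rw [this]
        exact mul_le_of_le_one_right hw0 (pow_le_one₀ hw0 hw1)
  have k1 : |3 * ((a : ℝ) * X0 ^ 2) + 6 * (b * X0) + 3 * c| ≤
      3 * (R * 1) + 6 * (R * 1) + 3 * R :=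
    aa (aa (am h3 (am ha hX2)) (am h6 (am hb hX0))) (am h3 hc)
  have k2 : |3 * ((a : ℝ) * X0) + 3 * b| ≤ 3 * (R * 1) + 3 * R :=
    aa (am h3 (am ha hX0)) (am h3 hb)
  refine (as hm (aa (aa (am k1 hp) (am k2 x2)) (am ha x3))).trans ?_
  linarith

/-- Module Entry3, size of the error. -/
theorem entry_err3 (a b c D m p r : ℤ) (X0 R w Q1 Q2 : ℝ) (hX0 : |X0| ≤ 1) (hR : 1 ≤ R)
    (ha : |(a : ℝ)| ≤ R) (hb : |(b : ℝ)| ≤ R) (hc : |(c : ℝ)| ≤ R) (hw0 : 0 < w) (hw1 : w ≤ 1)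
    (hm : |-((a : ℝ) * X0 ^ 3 + 3 * b * X0 ^ 2 + 3 * c * X0) - m| ≤ 1 / 2)
    (hRw : 1 ≤ R * w) (i : ℕ) (hF : |Fv a b c D p r| = 1) (hQ1 : 1 ≤ Q1)
    (hr1 : Q1 ≤ (r : ℝ)) (hr2 : (r : ℝ) ≤ Q2) (hp : |(p : ℝ) / r - X0| ≤ w)
    (l : ℕ) (hl : l ≤ i) (n : ℕ) (hn : n < i) (σ : Bool) :
    |(rowl a b c m p r (D - m) l (mb (n, σ)) : ℝ) -
      ∑ k ∈ Finset.range (3 * i + 1),
        (wpol a b c m X0 (mb (n, σ))).coeff k * yl a b c p r X0 l k| ≤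
      (1000 * R ^ 4 * i / w) ^ l * ((4 * i * Q2) * (22 * (R * w)) ^ n * (1 / Q1 ^ 3)) := by
  have hi1 : 1 ≤ i := by omega
  have hi1' : (1 : ℝ) ≤ i := by exact_mod_cast hi1
  have hr0 : (0 : ℝ) < r := by linarith
  have hQ2 : 1 ≤ Q2 := by linarith
  have hdeg : (wpol a b c m X0 (mb (n, σ))).natDegree < 3 * i + 1 := by
    have := mb_deg a b c m X0 n σ
    omega
  rw [sum_yl a b c p r X0 l _ _ hdeg, ← wpol_nab_iter]
  obtain ⟨hN, hd1, hd2⟩ := nab_nrm a b c m X0 R w hX0 hR ha hb hc hw0 hw1 hm hRw i n hn σ l hl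
  unfold rowl
  obtain ⟨f, hf⟩ : ∃ f : ℤ[X] × ℤ[X], f = (nab a b c m)^[l] (mb (n, σ)) := ⟨_, rfl⟩
  rw [← hf] at hN hd1 hd2 ⊢
  obtain ⟨ρ, hρdef⟩ : ∃ ρ : ℝ, ρ = (p : ℝ) / r := ⟨_, rfl⟩
  have hpr : (p : ℝ) = ρ * r := by rw [hρdef]; field_simp
  rw [← hρdef] at hp ⊢
  have hρ : |ρ| ≤ 2 := by
    rw [abs_le] at hX0 hp ⊢
    constructor <;> linarith [hX0.1, hX0.2, hp.1, hp.2]
  have hDb := entry3_dbound a b c m X0 R ρ w hX0 hR ha hb hc hw1 hm hRw hp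
  rw [entry3_wpol_eval]
  obtain ⟨D', hD'⟩ : ∃ D' : ℝ, D' = -((a : ℝ) * ρ ^ 3 + 3 * b * ρ ^ 2 + 3 * c * ρ) := ⟨_, rfl⟩
  rw [← hD'] at hDb ⊢
  obtain ⟨e, he⟩ : ∃ e : ℝ, e = 1 / Q1 ^ 3 := ⟨_, rfl⟩
  have he0 : 0 ≤ e := by rw [he]; positivity
  have he1 : e ≤ 1 := by
    rw [he, div_le_one (by positivity)]
    exact one_le_pow₀ hQ1
  rw [← he]
  have hFr : |(a : ℝ) * p ^ 3 + 3 * b * p ^ 2 * r + 3 * c * p * r ^ 2 + D * r ^ 3| = 1 := by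
    have h1 : ((|Fv a b c D p r| : ℤ) : ℝ) = 1 := by rw [hF]; norm_num
    rw [Int.cast_abs] at h1
    unfold Fv at h1
    push_cast at h1
    exact h1
  have hDD : |((D : ℝ) - m) - (D' - m)| ≤ e := by
    have h1 : ((D : ℝ) - m) - (D' - m) =
        ((a : ℝ) * p ^ 3 + 3 * b * p ^ 2 * r + 3 * c * p * r ^ 2 + D * r ^ 3) / r ^ 3 := by
      rw [hD', hpr]
      field_simp
      ring
    rw [h1, abs_div, hFr, abs_of_pos (by positivity), he]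
    gcongr
  have hY1 : 1 ≤ 22 * (R * w) := by linarith
  have hy : |D' - m| ≤ 22 * (R * w) := by linarith
  have hx : |(D : ℝ) - m| ≤ 22 * (R * w) := by
    have h1 : (D : ℝ) - m = (D' - m) + (((D : ℝ) - m) - (D' - m)) := by ring
    rw [h1]
    refine (aa hDb hDD).trans ?_
    linarith
  have hg1 : (f.1.map (Int.castRingHom ℝ)).natDegree ≤ n + l := natDegree_map_le.trans hd1
  have hg2 : (f.2.map (Int.castRingHom ℝ)).natDegree ≤ n + l := natDegree_map_le.trans hd2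
  have L1 := entry3_lip (f.1.map (Int.castRingHom ℝ)) (22 * (R * w)) _ _ (n + l) hY1 hx hy hg1
  have L2 := entry3_lip (f.2.map (Int.castRingHom ℝ)) (22 * (R * w)) _ _ (n + l) hY1 hx hy hg2
  obtain ⟨N1, hN1⟩ : ∃ N1 : ℝ, N1 = nrm (f.1.map (Int.castRingHom ℝ)) (22 * (R * w)) := ⟨_, rfl⟩
  obtain ⟨N2, hN2⟩ : ∃ N2 : ℝ, N2 = nrm (f.2.map (Int.castRingHom ℝ)) (22 * (R * w)) := ⟨_, rfl⟩
  have hN10 : 0 ≤ N1 := by
    rw [hN1, nrm]
    exact Finset.sum_nonneg fun j _ => mul_nonneg (abs_nonneg _) (pow_nonneg (by linarith) _)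
  have hN20 : 0 ≤ N2 := by
    rw [hN2, nrm]
    exact Finset.sum_nonneg fun j _ => mul_nonneg (abs_nonneg _) (pow_nonneg (by linarith) _)
  rw [← hN1, ← hN2] at hN
  rw [← hN1] at L1
  rw [← hN2] at L2
  have hratio : ((n + l : ℕ) : ℝ) / (22 * (R * w)) ≤ i := by
    rw [div_le_iff₀ (by linarith)]
    have h1 : ((n + l : ℕ) : ℝ) ≤ 2 * i := by
      have : n + l ≤ 2 * i := by omega
      exact_mod_cast this
    nlinarith
  have hratio0 : 0 ≤ ((n + l : ℕ) : ℝ) / (22 * (R * w)) := by positivity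
  have M1 : |(f.1.map (Int.castRingHom ℝ)).eval ((D : ℝ) - m) -
      (f.1.map (Int.castRingHom ℝ)).eval (D' - m)| ≤ e * (i * N1) :=
    L1.trans (mul_le_mul hDD (mul_le_mul_of_nonneg_right hratio hN10)
      (mul_nonneg hratio0 hN10) he0)
  have M2 : |(f.2.map (Int.castRingHom ℝ)).eval ((D : ℝ) - m) -
      (f.2.map (Int.castRingHom ℝ)).eval (D' - m)| ≤ e * (i * N2) :=
    L2.trans (mul_le_mul hDD (mul_le_mul_of_nonneg_right hratio hN20)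
      (mul_nonneg hratio0 hN20) he0)
  push_cast
  rw [entry3_cast, entry3_cast]
  have h1 : (r : ℝ) * (f.1.map (Int.castRingHom ℝ)).eval ((D : ℝ) - m) +
      p * (f.2.map (Int.castRingHom ℝ)).eval ((D : ℝ) - m) -
      r * ((f.1.map (Int.castRingHom ℝ)).eval (D' - m) +
        ρ * (f.2.map (Int.castRingHom ℝ)).eval (D' - m)) =
      r * (((f.1.map (Int.castRingHom ℝ)).eval ((D : ℝ) - m) -
        (f.1.map (Int.castRingHom ℝ)).eval (D' - m)) +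
        ρ * ((f.2.map (Int.castRingHom ℝ)).eval ((D : ℝ) - m) -
        (f.2.map (Int.castRingHom ℝ)).eval (D' - m))) := by
    rw [hpr]
    ring
  rw [h1]
  have hrQ : |(r : ℝ)| ≤ Q2 := by rw [abs_of_pos hr0]; exact hr2
  refine (am hrQ (aa M1 (am hρ M2))).trans ?_
  obtain ⟨Z, hZ⟩ : ∃ Z : ℝ, Z = (1000 * R ^ 4 * i / w) ^ l * (22 * (R * w)) ^ n := ⟨_, rfl⟩
  rw [← hZ] at hN
  have h2 : (1000 * R ^ 4 * i / w) ^ l * ((4 * i * Q2) * (22 * (R * w)) ^ n * e) =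
      (4 * i * Q2 * e) * Z := by rw [hZ]; ring
  rw [h2]
  have hQie : 0 ≤ (i : ℝ) * Q2 * e := by positivity
  have h3 : Q2 * (e * (i * N1) + 2 * (e * (i * N2))) = (i * Q2 * e) * (N1 + 2 * N2) := by ring
  have h4 : (4 * i * Q2 * e) * Z = (i * Q2 * e) * (4 * Z) := by ring
  rw [h3, h4]
  apply mul_le_mul_of_nonneg_left _ hQie
  linarith

end Pool.Agent.Work.MP_f2148a_nt.Exp
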