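import Mathlib
import Pool.Agent.Work.MP_f2148a_nt.Exp.NumArc

set_option autoImplicit false

namespace Pool.Agent.Work.MP_f2148a_nt.Exp

/-- Module NumArc3. -/
theorem num_arc3 (R W q Θ : ℝ) (i μ : ℕ) (hR : 1 ≤ R) (hW : 1 ≤ W) (hq : 2 * W ≤ q)
    (hi1 : 9 * q / (2 * W) ≤ i) (hi2 : (i : ℝ) ≤ 5 * q / W)
    (hRw : 1 ≤ R * Real.exp (-W))
    (hΓ : Real.log R - W + 16 / 5 ≤ W / 50) (hΘ : 1 ≤ Θ) (hμ : μ * Real.log Θ ≤ q / 20)
    (hΩ : 40 * (Real.log (2 * i) + Real.log (3 * i + 2) + Real.log (4 * i)) < q) :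
    Θ ^ (2 * i * μ) * (((2 * i).factorial : ℝ) * (3 * i + 2) ^ (2 * i) *
      ((4 * i * Real.exp (9 / 8 * q)) ^ (2 * i) *
        (22 * (R * Real.exp (-W))) ^ (i * (i - 1)) *
        Real.exp (-(3 * q * i) + 9 * q ^ 2 / (4 * W)))) < 1 := by
  have hW0 : 0 < W := by linarith
  have hq0 : 0 < q := by linarith
  have hR0 : 0 < R := by linarith
  have hΘ0 : 0 < Θ := by linarith
  have hi0 : (0 : ℝ) < i := by
    have : 0 < 9 * q / (2 * W) := by positivity
    linarith
  have hi1' : 1 ≤ i := by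
    have : 0 < i := by exact_mod_cast hi0
    omega
  have hi1r : (1 : ℝ) ≤ i := by exact_mod_cast hi1'
  have hw0 : 0 < Real.exp (-W) := Real.exp_pos _
  have hf0 : (0 : ℝ) < (2 * i).factorial := by exact_mod_cast Nat.factorial_pos _
  rw [← Real.log_lt_log_iff (by positivity) (by positivity), Real.log_one]
  rw [Real.log_mul (by positivity) (by positivity), Real.log_mul (by positivity) (by positivity),
    Real.log_mul (by positivity) (by positivity), Real.log_mul (by positivity) (by positivity),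
    Real.log_mul (by positivity) (by positivity), Real.log_pow, Real.log_pow, Real.log_pow,
    Real.log_pow, Real.log_exp]
  have hlogB : Real.log (4 * i * Real.exp (9 / 8 * q)) = Real.log (4 * i) + 9 / 8 * q := by
    rw [Real.log_mul (by positivity) (by positivity), Real.log_exp]
  have hlogG : Real.log (22 * (R * Real.exp (-W))) ≤ 32 / 10 + Real.log R - W := by
    rw [Real.log_mul (by positivity) (by positivity), Real.log_mul (by positivity) (by positivity),
      Real.log_exp]
    have := log_22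
    linarith
  have hlogG0 : 0 ≤ Real.log (22 * (R * Real.exp (-W))) := by
    apply Real.log_nonneg
    linarith
  have hfac := log_fact_le (2 * i)
  have e1 : ((2 * i * μ : ℕ) : ℝ) * Real.log Θ ≤ i * q / 10 := by
    push_cast
    calc 2 * (i : ℝ) * μ * Real.log Θ = 2 * i * (μ * Real.log Θ) := by ring
      _ ≤ 2 * i * (q / 20) := by gcongr
      _ = i * q / 10 := by ring
  have e3 : ((i * (i - 1) : ℕ) : ℝ) * Real.log (22 * (R * Real.exp (-W))) ≤
      (i : ℝ) ^ 2 * (32 / 10 + Real.log R - W) := by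
    calc ((i * (i - 1) : ℕ) : ℝ) * Real.log (22 * (R * Real.exp (-W)))
        ≤ (i : ℝ) ^ 2 * Real.log (22 * (R * Real.exp (-W))) := by
          gcongr
          have : i * (i - 1) ≤ i ^ 2 := by
            rw [sq]; exact Nat.mul_le_mul_left _ (Nat.sub_le _ _)
          exact_mod_cast this
      _ ≤ _ := by gcongr
  have e4 : Real.log ((2 * i).factorial : ℝ) ≤ 2 * i * Real.log (2 * i) := by
    push_cast at hfac
    exact hfac
  have hiW : (i : ℝ) * W ≤ 5 * q := by
    rwa [le_div_iff₀ hW0] at hi2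
  have f1 : (i : ℝ) ^ 2 * (32 / 10 + Real.log R - W) ≤ i * q / 10 := by
    calc (i : ℝ) ^ 2 * (32 / 10 + Real.log R - W) ≤ (i : ℝ) ^ 2 * (W / 50) := by
          gcongr
          linarith
      _ = i * (i * W) / 50 := by ring
      _ ≤ i * (5 * q) / 50 := by gcongr
      _ = i * q / 10 := by ring
  have f2 : 2 * (i : ℝ) * (Real.log (2 * i) + Real.log (3 * i + 2) + Real.log (4 * i)) <
      i * q / 20 := by
    have h := mul_lt_mul_of_pos_left hΩ hi0
    linarith
  have f3 : 9 * q ^ 2 / (4 * W) ≤ i * q / 2 := by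
    calc 9 * q ^ 2 / (4 * W) = (9 * q / (2 * W)) * q / 2 := by field_simp; ring
      _ ≤ i * q / 2 := by gcongr
  have e5 : ((2 * i : ℕ) : ℝ) * Real.log (3 * i + 2) = 2 * i * Real.log (3 * i + 2) := by
    push_cast; ring
  have e6 : ((2 * i : ℕ) : ℝ) * Real.log (4 * i * Real.exp (9 / 8 * q)) =
      2 * i * Real.log (4 * i) + 9 / 4 * (i * q) := by
    rw [hlogB]; push_cast; ring
  rw [e5, e6]
  have hiq : 0 < (i : ℝ) * q := by positivity
  linarith
end Pool.Agent.Work.MP_f2148a_nt.Exp
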