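import Mathlib
import Pool.Agent.Work.MP_f2148a_nt.Exp3.Defs3

set_option autoImplicit false

namespace Pool.Agent.Work.MP_f2148a_nt.Exp

open Polynomial

/-- The wedge of two pairs. -/
private noncomputable def ordW (g h : ℤ[X] × ℤ[X]) : ℤ[X] := g.1 * h.2 - g.2 * h.1

private theorem ordW_deriv (a b c m : ℤ) (g h : ℤ[X] × ℤ[X]) :
    3 * delta a b c m * derivative (ordW g h) =
      ordW (nab a b c m g) h + ordW g (nab a b c m h) + ps1 a b c m * ordW g h := by
  unfold ordW nab hatU hatV
  simp only [derivative_sub, derivative_mul]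
  ring

private theorem ordW_omega (a b c m : ℤ) (f : ℤ[X] × ℤ[X]) :
    omega a b c m f = ordW f (nab a b c m f) := by
  unfold ordW nab omega
  ring

private theorem ord_delta_eval (a b c m d : ℤ) : (delta a b c m).eval d = Dv a b c (d + m) := by
  simp [delta, Dv]
  ring

private theorem ord_dvd_of_deriv (d : ℤ) (k : ℕ) (hk : 1 ≤ k) (g : ℤ[X])
    (h1 : (X - C d) ^ k ∣ g) (h2 : (X - C d) ^ k ∣ derivative g) : (X - C d) ^ (k + 1) ∣ g := by
  obtain ⟨q, rfl⟩ := h1
  obtain ⟨j, rfl⟩ : ∃ j, k = j + 1 := ⟨k - 1, by omega⟩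
  have hne : ((X - C d) ^ j : ℤ[X]) ≠ 0 := pow_ne_zero _ (X_sub_C_ne_zero d)
  have h3 : (X - C d) ∣ C ((j : ℤ) + 1) * q := by
    have e : derivative ((X - C d) ^ (j + 1) * q) =
        (X - C d) ^ j * (C ((j : ℤ) + 1) * q) + (X - C d) ^ (j + 1) * derivative q := by
      rw [derivative_mul, derivative_X_sub_C_pow]
      simp only [Nat.add_sub_cancel]
      push_cast
      simp only [map_add, map_one, map_natCast]
      ring
    rw [e] at h2
    have h4 : (X - C d) ^ (j + 1) ∣ (X - C d) ^ j * (C ((j : ℤ) + 1) * q) :=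
      (dvd_add_left (Dvd.intro _ rfl)).mp h2
    rw [pow_succ] at h4
    exact (mul_dvd_mul_iff_left hne).mp h4
  have h5 : (X - C d) ∣ q := by
    rw [dvd_iff_isRoot] at h3 ⊢
    simp only [IsRoot.def, eval_mul, eval_C] at h3 ⊢
    rcases mul_eq_zero.mp h3 with h | h
    · exact absurd h (by positivity)
    · exact h
  rw [pow_succ (X - C d) (j + 1)]
  exact mul_dvd_mul_left _ h5

/-- Module Ord3. -/
theorem ord_omega (a b c m d p r : ℤ) (hr : r ≠ 0) (hδ : Dv a b c (d + m) ≠ 0) (μ : ℕ)
    (f : ℤ[X] × ℤ[X]) (h : ∀ l ≤ μ, rowl a b c m p r d l f = 0) :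
    (X - C d) ^ μ ∣ omega a b c m f := by
  have key : ∀ k : ℕ, ∀ s t : ℕ, s + k ≤ μ + 1 → t + k ≤ μ + 1 →
      (X - C d) ^ k ∣ ordW ((nab a b c m)^[s] f) ((nab a b c m)^[t] f) := by
    intro k
    induction k with
    | zero => intro s t _ _; simp
    | succ k ih =>
      intro s t hs ht
      rcases Nat.eq_zero_or_pos k with rfl | hk
      · rw [zero_add, pow_one, dvd_iff_isRoot, IsRoot.def]
        have hs' := h s (by omega)
        have ht' := h t (by omega)
        unfold rowl at hs' ht'
        unfold ordW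
        rw [eval_sub, eval_mul, eval_mul]
        apply mul_left_cancel₀ hr
        linear_combination (eval d ((nab a b c m)^[t] f).2) * hs' -
          (eval d ((nab a b c m)^[s] f).2) * ht'
      · apply ord_dvd_of_deriv d k hk
        · exact ih s t (by omega) (by omega)
        · have e1 := ordW_deriv a b c m ((nab a b c m)^[s] f) ((nab a b c m)^[t] f)
          have h1 := ih s t (by omega) (by omega)
          have h2 := ih (s + 1) t (by omega) (by omega)
          have h3 := ih s (t + 1) (by omega) (by omega)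
          rw [Function.iterate_succ_apply'] at h2 h3
          have h4 : (X - C d) ^ k ∣ 3 * delta a b c m *
              derivative (ordW ((nab a b c m)^[s] f) ((nab a b c m)^[t] f)) := by
            rw [e1]
            exact dvd_add (dvd_add h2 h3) (Dvd.dvd.mul_left h1 _)
          refine (prime_X_sub_C d).pow_dvd_of_dvd_mul_left k ?_ h4
          rw [dvd_iff_isRoot, IsRoot.def, eval_mul, ord_delta_eval]
          intro h0
          rcases mul_eq_zero.mp h0 with h0 | h0
          · simp at h0
          · exact hδ h0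
  rw [ordW_omega]
  have := key μ 0 1 (by omega) (by omega)
  simpa using this

end Pool.Agent.Work.MP_f2148a_nt.Exp
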