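import Mathlib
import Pool.Agent.Work.MP_f2148a_nt.Exp.Omega
import Pool.Agent.Work.MP_f2148a_nt.Exp.Family
import Pool.Agent.Work.MP_f2148a_nt.Exp3.Defs3
import Pool.Agent.Work.MP_f2148a_nt.Exp3.Ord3

set_option autoImplicit false

namespace Pool.Agent.Work.MP_f2148a_nt.Exp

open Polynomial

/-- `nab` as a linear map -/
private noncomputable def sel3NabL (a b c m : ℤ) : (ℤ[X] × ℤ[X]) →ₗ[ℤ] (ℤ[X] × ℤ[X]) where
  toFun := nab a b c m
  map_add' f g := by
    ext1
    · simp only [nab, hatU, Prod.fst_add, Prod.snd_add, derivative_add]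
      ring
    · simp only [nab, hatV, Prod.fst_add, Prod.snd_add, derivative_add]
      ring
  map_smul' t f := by
    ext1
    · simp only [nab, hatU, Prod.smul_fst, Prod.smul_snd, derivative_smul, RingHom.id_apply]
      simp only [smul_eq_C_mul]
      ring
    · simp only [nab, hatV, Prod.smul_fst, Prod.smul_snd, derivative_smul, RingHom.id_apply]
      simp only [smul_eq_C_mul]
      ring

private theorem sel3NabL_iter (a b c m : ℤ) (l : ℕ) (f : ℤ[X] × ℤ[X]) :
    ((sel3NabL a b c m) ^ l) f = (nab a b c m)^[l] f := by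
  rw [Module.End.pow_apply]
  rfl

/-- `rowl` as a linear map -/
private noncomputable def sel3RowL (a b c m p r d : ℤ) (l : ℕ) : (ℤ[X] × ℤ[X]) →ₗ[ℤ] ℤ where
  toFun := rowl a b c m p r d l
  map_add' f g := by
    simp only [rowl, ← sel3NabL_iter, map_add, Prod.fst_add, Prod.snd_add, eval_add]
    ring
  map_smul' t f := by
    simp only [rowl, ← sel3NabL_iter, map_smul, Prod.smul_fst, Prod.smul_snd, eval_smul,
      smul_eq_mul, RingHom.id_apply]
    ring

private theorem sel3RowL_apply (a b c m p r d : ℤ) (l : ℕ) (f : ℤ[X] × ℤ[X]) :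
    sel3RowL a b c m p r d l f = rowl a b c m p r d l f := rfl

private theorem sel3_indep (i : ℕ) (y : Fin i → ℤ) (h : ∑ n : Fin i, y n • (X : ℤ[X]) ^ (n : ℕ) = 0) :
    ∀ n, y n = 0 := by
  intro n
  have h1 := congrArg (fun q : ℤ[X] => q.coeff (n : ℕ)) h
  simp only [finsetSum_coeff, coeff_smul, coeff_X_pow, smul_eq_mul, coeff_zero] at h1
  rw [Finset.sum_eq_single n] at h1
  · simpa using h1
  · intro k _ hk
    rw [if_neg (fun e => hk (Fin.ext e.symm)), mul_zero]
  · intro h2
    exact absurd (Finset.mem_univ _) h2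

/-- the key vanishing statement -/
private theorem sel3_comb_zero (a b c m : ℤ) (ha : a ≠ 0) (hbc : b ^ 2 ≠ a * c) (i μ : ℕ)
    (hi : 0 < i) (S : Finset ℤ) (hS : 2 * i < S.card * μ) (p r : ℤ → ℤ) (hr : ∀ d ∈ S, r d ≠ 0)
    (hδ : ∀ d ∈ S, Dv a b c (d + m) ≠ 0)
    (y : Fin i × Bool → ℤ)
    (hy : ∀ d ∈ S, ∀ l ≤ μ, ∑ c' : Fin i × Bool,
      y c' * rowl a b c m (p d) (r d) d l (mb ((c'.1 : ℕ), c'.2)) = 0) : y = 0 := by
  set f : ℤ[X] × ℤ[X] := ∑ c' : Fin i × Bool, y c' • mb ((c'.1 : ℕ), c'.2) with hf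
  have hrow : ∀ d ∈ S, ∀ l ≤ μ, rowl a b c m (p d) (r d) d l f = 0 := by
    intro d hd l hl
    rw [← sel3RowL_apply, hf, map_sum, ← hy d hd l hl]
    apply Finset.sum_congr rfl
    intro c' _
    rw [map_smul, sel3RowL_apply, smul_eq_mul]
  have hf1 : f.1 = ∑ n : Fin i, y (n, false) • (X : ℤ[X]) ^ (n : ℕ) := by
    rw [hf, Prod.fst_sum, Fintype.sum_prod_type]
    apply Finset.sum_congr rfl
    intro n _
    rw [Fintype.sum_bool]
    simp [mb]
  have hf2 : f.2 = ∑ n : Fin i, y (n, true) • (X : ℤ[X]) ^ (n : ℕ) := by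
    rw [hf, Prod.snd_sum, Fintype.sum_prod_type]
    apply Finset.sum_congr rfl
    intro n _
    rw [Fintype.sum_bool]
    simp [mb]
  have hdeg : ∀ β, (∑ n : Fin i, y (n, β) • (X : ℤ[X]) ^ (n : ℕ)).natDegree ≤ i - 1 := by
    intro β
    apply natDegree_sum_le_of_forall_le
    intro n _
    refine (natDegree_smul_le _ _).trans ((natDegree_X_pow_le _).trans ?_)
    have := n.2
    omega
  have hom : omega a b c m f = 0 := by
    by_contra hne
    have h1 := omega_deg a b c m f (i := i - 1) (by rw [hf1]; exact hdeg false)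
        (by rw [hf2]; exact hdeg true)
    have h2 : μ • S.val ≤ (omega a b c m f).roots := by
      rw [Multiset.le_iff_count]
      intro e
      rw [Multiset.count_nsmul]
      by_cases he : e ∈ S
      · rw [Multiset.count_eq_one_of_mem S.nodup he, count_roots, le_rootMultiplicity_iff hne,
          mul_one]
        exact ord_omega a b c m e (p e) (r e) (hr e he) (hδ e he) μ f (hrow e he)
      · rw [Multiset.count_eq_zero_of_notMem he, mul_zero]
        exact Nat.zero_le _
    have h3 := Multiset.card_le_card h2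
    rw [Multiset.card_nsmul] at h3
    have h4 := card_roots' (omega a b c m f)
    have h5 : S.val.card = S.card := rfl
    rw [h5, mul_comm] at h3
    omega
  have hf0 : f = 0 := by
    by_contra h
    exact omega_ne_zero a b c m ha hbc f h hom
  funext ⟨n, β⟩
  cases β
  · refine sel3_indep i (fun n => y (n, false)) ?_ n
    rw [← hf1, hf0]
    rfl
  · refine sel3_indep i (fun n => y (n, true)) ?_ n
    rw [← hf2, hf0]
    rfl

/-- Module Sel3. -/
theorem exists_minor3 (a b c m : ℤ) (ha : a ≠ 0) (hbc : b ^ 2 ≠ a * c) (i μ : ℕ) (S : Finset ℤ)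
    (hS : 2 * i < S.card * μ) (p r : ℤ → ℤ) (hr : ∀ d ∈ S, r d ≠ 0)
    (hδ : ∀ d ∈ S, Dv a b c (d + m) ≠ 0) :
    ∃ s : Fin i × Bool → ℤ × ℕ, (∀ j, (s j).1 ∈ S ∧ (s j).2 ≤ μ) ∧
      Matrix.det (Matrix.of fun (j c' : Fin i × Bool) =>
        rowl a b c m (p (s j).1) (r (s j).1) (s j).1 (s j).2 (mb ((c'.1 : ℕ), c'.2))) ≠ 0 := by
  classical
  rcases Nat.eq_zero_or_pos i with hi | hi
  · subst hi
    refine ⟨fun j => (0, 0), fun j => j.1.elim0, ?_⟩
    rw [Matrix.det_isEmpty]
    exact one_ne_zero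
  set v : ℤ × ℕ → (Fin i × Bool → ℚ) := fun x c' =>
    (rowl a b c m (p x.1) (r x.1) x.1 x.2 (mb ((c'.1 : ℕ), c'.2)) : ℚ) with hv
  set A : Set (Fin i × Bool → ℚ) := v '' {x | x.1 ∈ S ∧ x.2 ≤ μ} with hA
  have hspan : Submodule.span ℚ A = ⊤ := by
    by_contra hne
    obtain ⟨f, hf0, hfle⟩ := Submodule.exists_le_ker_of_lt_top _ (lt_top_iff_ne_top.2 hne)
    obtain ⟨N, hN⟩ := IsLocalization.exist_integer_multiples_of_finite (nonZeroDivisors ℤ)
      (fun c' : Fin i × Bool => f (Pi.single c' 1))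
    choose y hy using hN
    have hy' : ∀ c', (y c' : ℚ) = ((N : ℤ) : ℚ) * f (Pi.single c' 1) := by
      intro c'
      have := hy c'
      simpa [Algebra.smul_def] using this
    have hN0 : ((N : ℤ) : ℚ) ≠ 0 := by
      exact_mod_cast nonZeroDivisors.coe_ne_zero N
    have hy0 : y = 0 := by
      apply sel3_comb_zero a b c m ha hbc i μ hi S hS p r hr hδ
      intro d hd l hl
      have h1 : v (d, l) ∈ LinearMap.ker f :=
        hfle (Submodule.subset_span ⟨(d, l), ⟨hd, hl⟩, rfl⟩)
      rw [LinearMap.mem_ker] at h1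
      have h2 : f (v (d, l)) = ∑ c', v (d, l) c' * f (Pi.single c' 1) := by
        conv_lhs => rw [← Finset.univ_sum_single (v (d, l))]
        rw [map_sum]
        apply Finset.sum_congr rfl
        intro c' _
        have : (Pi.single c' (v (d, l) c') : Fin i × Bool → ℚ) =
            v (d, l) c' • (Pi.single c' (1 : ℚ) : Fin i × Bool → ℚ) := by
          rw [← Pi.single_smul, smul_eq_mul, mul_one]
        rw [this, map_smul, smul_eq_mul]
      have h3 : ((∑ c' : Fin i × Bool,
          y c' * rowl a b c m (p d) (r d) d l (mb ((c'.1 : ℕ), c'.2)) : ℤ) : ℚ) = 0 := by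
        push_cast
        calc ∑ c' : Fin i × Bool,
            (y c' : ℚ) * (rowl a b c m (p d) (r d) d l (mb ((c'.1 : ℕ), c'.2)) : ℚ)
            = ((N : ℤ) : ℚ) * ∑ c', v (d, l) c' * f (Pi.single c' 1) := by
              rw [Finset.mul_sum]
              apply Finset.sum_congr rfl
              intro c' _
              rw [hy' c', hv]
              ring
          _ = 0 := by rw [← h2, h1, mul_zero]
      exact_mod_cast h3
    apply hf0
    apply LinearMap.pi_ext'
    intro c'
    apply LinearMap.ext_ring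
    have h1 := hy' c'
    rw [hy0, Pi.zero_apply, Int.cast_zero] at h1
    have h2 : f (Pi.single c' 1) = 0 := by
      rcases mul_eq_zero.1 h1.symm with h | h
      · exact absurd h hN0
      · exact h
    simpa using h2
  obtain ⟨B, hBA, hBspan, hBli⟩ := exists_linearIndependent ℚ A
  let bas : Module.Basis B ℚ (Fin i × Bool → ℚ) := Module.Basis.mk hBli (by
    rw [Subtype.range_coe, hBspan, hspan])
  let e : (Fin i × Bool) ≃ B := (Pi.basisFun ℚ (Fin i × Bool)).indexEquiv bas
  have hch : ∀ j : Fin i × Bool, ∃ x : ℤ × ℕ, (x.1 ∈ S ∧ x.2 ≤ μ) ∧ v x = (e j : Fin i × Bool → ℚ) := by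
    intro j
    obtain ⟨x, hx, hxe⟩ := hBA (e j).2
    exact ⟨x, hx, hxe⟩
  choose s hs1 hs2 using hch
  refine ⟨s, hs1, ?_⟩
  have hli : LinearIndependent ℚ (fun j => v (s j)) := by
    have h1 := hBli.comp e e.injective
    have h2 : (fun j => v (s j)) = (fun x : B => (x : Fin i × Bool → ℚ)) ∘ e := by
      funext j
      exact hs2 j
    rw [h2]
    exact h1
  have hdet : (Matrix.of fun j c' => v (s j) c').det ≠ 0 := by
    have h1 : LinearIndependent ℚ (Matrix.of fun j c' => v (s j) c').row := hli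
    rw [Matrix.linearIndependent_rows_iff_isUnit, Matrix.isUnit_iff_isUnit_det] at h1
    exact h1.ne_zero
  intro h0
  apply hdet
  have h1 : (Matrix.of fun j c' => v (s j) c') =
      (Matrix.of fun (j c' : Fin i × Bool) =>
        rowl a b c m (p (s j).1) (r (s j).1) (s j).1 (s j).2 (mb ((c'.1 : ℕ), c'.2))).map
        (Int.castRingHom ℚ) := by
    ext j c'
    simp [hv]
  rw [h1, ← RingHom.mapMatrix_apply, ← RingHom.map_det, h0, map_zero]

end Pool.Agent.Work.MP_f2148a_nt.Exp
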