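import Mathlib
import Pool.Agent.Work.MP_f2148a_nt.Exp3.Sel3
import Pool.Agent.Work.MP_f2148a_nt.Exp3.Entry3
import Pool.Agent.Work.MP_f2148a_nt.Exp3.NumArc3
import Pool.Agent.Work.MP_f2148a_nt.Exp3.Count3
import Pool.Agent.Work.MP_f2148a_nt.Exp.Arc2

set_option autoImplicit false

namespace Pool.Agent.Work.MP_f2148a_nt.Exp

open Polynomial

/-- The arc bound by determinants with multiplicities. -/
theorem arc_card3 (a b c : ℤ) (ha0 : a ≠ 0) (hbc : b ^ 2 ≠ a * c) (X0 R W q Θ : ℝ) (i μ : ℕ)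
    (hX0 : |X0| ≤ 1) (hR : 1 ≤ R) (ha : |(a : ℝ)| ≤ R) (hb : |(b : ℝ)| ≤ R) (hc : |(c : ℝ)| ≤ R)
    (hW : 0 < W) (hq : 0 < q) (hRw : 1 ≤ R * Real.exp (-W)) (hi : 1 ≤ i) (hμi : μ ≤ i)
    (hΘ : Θ = 1000 * R ^ 4 * i / Real.exp (-W))
    (hnum : Θ ^ (2 * i * μ) * (((2 * i).factorial : ℝ) * (3 * i + 2) ^ (2 * i) *
      ((4 * i * Real.exp (9 / 8 * q)) ^ (2 * i) *
        (22 * (R * Real.exp (-W))) ^ (i * (i - 1)) *
        Real.exp (-(3 * q * i) + 9 * q ^ 2 / (4 * W)))) < 1)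
    (S : Finset ℤ)
    (hS : ∀ D ∈ S, Dv a b c D ≠ 0 ∧ ∃ p r : ℤ, |Fv a b c D p r| = 1 ∧ Real.exp q ≤ (r : ℝ) ∧
      (r : ℝ) ≤ Real.exp (9 / 8 * q) ∧ |(p : ℝ) / r - X0| ≤ Real.exp (-W)) :
    S.card * μ ≤ 2 * i := by
  classical
  by_contra hcard
  push Not at hcard
  set w := Real.exp (-W) with hw
  have hw0 : 0 < w := Real.exp_pos _
  have hw1 : w ≤ 1 := by
    rw [hw]; exact Real.exp_le_one_iff.2 (by linarith)
  have hQ1 : 1 ≤ Real.exp q := Real.one_le_exp hq.le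
  have hir : (1 : ℝ) ≤ i := by exact_mod_cast hi
  have hΘ1 : 1 ≤ Θ := by
    rw [hΘ, le_div_iff₀ hw0, one_mul]
    have h1 : (1 : ℝ) ≤ R ^ 4 := one_le_pow₀ hR
    have h2 : (1 : ℝ) ≤ R ^ 4 * i := one_le_mul_of_one_le_of_one_le h1 hir
    nlinarith
  have hΘ0 : 0 < Θ := by linarith
  obtain ⟨m, hm⟩ : ∃ m : ℤ,
      |-((a : ℝ) * X0 ^ 3 + 3 * b * X0 ^ 2 + 3 * c * X0) - m| ≤ 1 / 2 :=
    ⟨round (-((a : ℝ) * X0 ^ 3 + 3 * b * X0 ^ 2 + 3 * c * X0)), abs_sub_round _⟩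
  have hch : ∀ d : ℤ, ∃ pr : ℤ × ℤ, d + m ∈ S → |Fv a b c (d + m) pr.1 pr.2| = 1 ∧
      Real.exp q ≤ (pr.2 : ℝ) ∧ (pr.2 : ℝ) ≤ Real.exp (9 / 8 * q) ∧
      |(pr.1 : ℝ) / pr.2 - X0| ≤ w := by
    intro d
    by_cases h : d + m ∈ S
    · obtain ⟨-, p, r, h1, h2, h3, h4⟩ := hS _ h
      exact ⟨(p, r), fun _ => ⟨h1, h2, h3, h4⟩⟩
    · exact ⟨(0, 0), fun h' => absurd h' h⟩
  choose pr hpr using hch
  set S' := S.image (fun D => D - m) with hS'
  have hcardS' : S'.card = S.card := Finset.card_image_of_injective _ sub_left_injective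
  have hmemS' : ∀ d ∈ S', d + m ∈ S := by
    intro d hd
    obtain ⟨D, hD, rfl⟩ := Finset.mem_image.1 hd
    rw [sub_add_cancel]; exact hD
  obtain ⟨s, hs, hdet⟩ := exists_minor3 a b c m ha0 hbc i μ S' (by rw [hcardS']; exact hcard)
    (fun d => (pr d).1)
    (fun d => (pr d).2) (by
      intro d hd
      have h := (hpr d (hmemS' d hd)).2.1
      have h2 : (0 : ℝ) < (pr d).2 := by linarith [Real.exp_pos q]
      have h3 : 0 < (pr d).2 := by exact_mod_cast h2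
      exact h3.ne')
    (fun d hd => (hS _ (hmemS' d hd)).1)
  have hs1 : ∀ j, (s j).1 ∈ S' := fun j => (hs j).1
  have hs2 : ∀ j, (s j).2 ≤ i := fun j => (hs j).2.trans hμi
  set M : Matrix (Fin i × Bool) (Fin i × Bool) ℤ := Matrix.of fun (j c' : Fin i × Bool) =>
        rowl a b c m (pr (s j).1).1 (pr (s j).1).2 (s j).1 (s j).2 (mb ((c'.1 : ℕ), c'.2)) with hM
  have hint : 1 ≤ |((M.det : ℤ) : ℝ)| := by
    have h1 : 1 ≤ |M.det| := Int.one_le_abs hdet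
    rw [← Int.cast_abs]
    exact_mod_cast h1
  -- the real matrix, rows scaled
  set B : ℝ := 4 * i * Real.exp (9 / 8 * q) with hB
  have hB0 : 0 ≤ B := by positivity
  set MR : Matrix (Fin i × Bool) (Fin i × Bool) ℝ := M.map (Int.castRingHom ℝ) with hMR
  have hMRdet : MR.det = ((M.det : ℤ) : ℝ) := by
    rw [hMR]
    exact ((Int.castRingHom ℝ).map_det M).symm
  let cf : ℕ → Fin i × Bool → ℝ := fun k c' => (wpol a b c m X0 (mb ((c'.1 : ℕ), c'.2))).coeff k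
  let y0 : ℕ → Fin i × Bool → ℝ := fun k j =>
    yl a b c (pr (s j).1).1 (pr (s j).1).2 X0 (s j).2 k
  let y : ℕ → Fin i × Bool → ℝ := fun k j => y0 k j / Θ ^ (s j).2
  let MS : Matrix (Fin i × Bool) (Fin i × Bool) ℝ := Matrix.of fun j c' => MR j c' / Θ ^ (s j).2
  let E : Matrix (Fin i × Bool) (Fin i × Bool) ℝ := Matrix.of fun j c' =>
    MS j c' - ∑ k ∈ Finset.range (3 * i + 1), cf k c' * y k j
  have hMSdet : MR.det = (∏ j, Θ ^ (s j).2) * MS.det := by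
    rw [← Matrix.det_mul_column]
    congr 1
    ext j c'
    show MR j c' = Θ ^ (s j).2 * (MR j c' / Θ ^ (s j).2)
    have : Θ ^ (s j).2 ≠ 0 := by positivity
    field_simp
  have hdivle : ∀ (j : Fin i × Bool) (x z : ℝ), |x| ≤ Θ ^ (s j).2 * z → |x / Θ ^ (s j).2| ≤ z := by
    intro j x z h
    have h1 : 0 < Θ ^ (s j).2 := by positivity
    rw [abs_div, abs_of_pos h1, div_le_iff₀ h1, mul_comm]
    exact h
  have hup := det_expand_le (3 * i + 1) MS cf y E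
    (fun j c' => by
      show MS j c' = _ + (MS j c' - _)
      ring)
    (fun k c' => B * (22 * (R * w)) ^ (c'.1 : ℕ) * w ^ (k - (c'.1 : ℕ)))
    (fun c' => B * (22 * (R * w)) ^ (c'.1 : ℕ) * (1 / Real.exp q ^ 3))
    (by
      intro k hk j c'
      obtain ⟨h1, h2, h3, h4⟩ := hpr (s j).1 (hmemS' _ (hs1 j))
      have h5 := entry_term3 a b c m _ _ X0 R w (Real.exp (9 / 8 * q)) hX0 hR ha hb hc hw0 hw1 hm
        hRw i (hQ1.trans h2) h3 h4 (s j).2 (hs2 j) c'.1 c'.1.2 c'.2 k hk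
      rw [← hΘ] at h5
      have h6 := hdivle j _ _ h5
      have h7 : cf k c' * y k j = (cf k c' * y0 k j) / Θ ^ (s j).2 := by
        show cf k c' * (y0 k j / Θ ^ (s j).2) = _
        ring
      rw [h7]
      exact h6)
    (by
      intro j c'
      obtain ⟨h1, h2, h3, h4⟩ := hpr (s j).1 (hmemS' _ (hs1 j))
      have h5 := entry_err3 a b c ((s j).1 + m) m _ _ X0 R w (Real.exp q) (Real.exp (9 / 8 * q))
        hX0 hR ha hb hc hw0 hw1 hm hRw i h1 hQ1 h2 h3 h4 (s j).2 (hs2 j) c'.1 c'.1.2 c'.2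
      rw [add_sub_cancel_right, ← hΘ] at h5
      have h6 := hdivle j _ _ h5
      have h7 : E j c' = (MR j c' - ∑ k ∈ Finset.range (3 * i + 1), cf k c' * y0 k j) /
          Θ ^ (s j).2 := by
        show MR j c' / Θ ^ (s j).2 - ∑ k ∈ Finset.range (3 * i + 1),
          cf k c' * (y0 k j / Θ ^ (s j).2) = _
        rw [sub_div, Finset.sum_div]
        congr 1
        apply Finset.sum_congr rfl
        intro k _
        ring
      rw [h7]
      exact h6)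
    (B ^ (2 * i) * (22 * (R * w)) ^ (i * (i - 1)) *
      Real.exp (-(3 * q * i) + 9 * q ^ 2 / (4 * W)))
    (by
      intro κ _ hinj
      exact prod_le i B (22 * (R * w)) (1 / Real.exp q ^ 3) w _ hB0 (by positivity)
        (by positivity) hw0.le hw1 (fun t _ => T_le q W hW hq i t) κ hinj)
  have hcardι : Fintype.card (Fin i × Bool) = 2 * i := by
    rw [Fintype.card_prod, Fintype.card_fin, Fintype.card_bool, mul_comm]
  rw [hcardι] at hup
  have hK : (((3 * i + 1 : ℕ) : ℝ) + 1) = 3 * i + 2 := by push_cast; ring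
  rw [hK] at hup
  have hprod : ∏ j, Θ ^ (s j).2 ≤ Θ ^ (2 * i * μ) := by
    calc ∏ j, Θ ^ (s j).2 ≤ ∏ _j : Fin i × Bool, Θ ^ μ := by
          apply Finset.prod_le_prod
          · intro j _; positivity
          · intro j _
            exact pow_le_pow_right₀ hΘ1 (hs j).2
      _ = Θ ^ (2 * i * μ) := by
          rw [Finset.prod_const, Finset.card_univ, hcardι, ← pow_mul, mul_comm μ]
  have hprod0 : 0 ≤ ∏ j, Θ ^ (s j).2 := Finset.prod_nonneg fun j _ => by positivity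
  rw [← hMRdet, hMSdet, abs_mul, abs_of_nonneg hprod0] at hint
  have h8 : (∏ j, Θ ^ (s j).2) * |MS.det| ≤ Θ ^ (2 * i * μ) * (((2 * i).factorial : ℝ) *
      (3 * i + 2) ^ (2 * i) * (B ^ (2 * i) * (22 * (R * w)) ^ (i * (i - 1)) *
      Real.exp (-(3 * q * i) + 9 * q ^ 2 / (4 * W)))) :=
    mul_le_mul hprod hup (abs_nonneg _) (by positivity)
  linarith

end Pool.Agent.Work.MP_f2148a_nt.Exp
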