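import Mathlib
import Pool.Agent.Work.MP_f2148a_nt.Exp3.Arc3
import Pool.Agent.Work.MP_f2148a_nt.Exp.Sub2

set_option autoImplicit false

namespace Pool.Agent.Work.MP_f2148a_nt.Exp

/-- Quadruples of size `≤ R`, of nonzero discriminant, with a solution of size in
`[exp q1, exp q2]`. -/
def Bal4 (R q1 q2 : ℝ) (q : ℤ × ℤ × ℤ × ℤ) : Prop :=
  q.1 ≠ 0 ∧ |(q.1 : ℝ)| ≤ R ∧ |(q.2.1 : ℝ)| ≤ R ∧ |(q.2.2.1 : ℝ)| ≤ R ∧
      |(q.2.2.2 : ℝ)| ≤ R ∧ Dv q.1 q.2.1 q.2.2.1 q.2.2.2 ≠ 0 ∧
      ∃ p r : ℤ, |Fv q.1 q.2.1 q.2.2.1 q.2.2.2 p r| = 1 ∧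
        Real.exp q1 ≤ (r : ℝ) ∧ (r : ℝ) ≤ Real.exp q2 ∧ |p| ≤ r

/-- One range of sizes. -/
theorem sub_bound3 (σ K L q : ℝ) (hσ0 : 0 ≤ σ) (hσ : σ ≤ 1 / 10000) (hK : 1 ≤ K)
    (hl0 : 1000 ≤ Real.log K) (hL : Real.log K ≤ L)
    (hB : 100000 * Real.log K ≤ q) (hC : q ≤ 2 * Real.exp L)
    (S : Finset (ℤ × ℤ × ℤ × ℤ))
    (hS : ∀ x ∈ S, Bal4 (18 * K ^ (1 / 4 + 3 * σ)) q (9 / 8 * q) x) :
    (S.card : ℝ) ≤ 1000000 * Real.exp 16 * L * K ^ (1 - 1 / 204 + 12 * σ) := by
  have hKpos : 0 < K := by linarith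
  set l := Real.log K with hl
  set R := 18 * K ^ (1 / 4 + 3 * σ) with hR
  have hKl : ∀ x : ℝ, K ^ x = Real.exp (x * l) := fun x => by
    rw [Real.rpow_def_of_pos hKpos, mul_comm]
  have hq0 : 0 < q := by linarith
  have hq1 : 1 ≤ q := by linarith
  have hlq0 : 0 ≤ Real.log q := Real.log_nonneg hq1
  have hlogR : Real.log R = Real.log 18 + (1 / 4 + 3 * σ) * l := by
    rw [hR, Real.log_mul (by norm_num) (by positivity), Real.log_rpow hKpos]
  have h18 := log_18
  have h18' : 0 ≤ Real.log 18 := Real.log_nonneg (by norm_num)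
  have hl2 : Real.log 2 ≤ 1 := by
    have := Real.log_two_lt_d9
    linarith
  have hl2' : 0 ≤ Real.log 2 := Real.log_nonneg (by norm_num)
  have hlq : Real.log q ≤ 1 + L := by
    calc Real.log q ≤ Real.log (2 * Real.exp L) := Real.log_le_log hq0 hC
      _ = Real.log 2 + L := by
        rw [Real.log_mul (by norm_num) (Real.exp_pos _).ne', Real.log_exp]
      _ ≤ 1 + L := by linarith
  have hlq2 : Real.log q ≤ q / 10000 := by
    have h1 : Real.log q = Real.log (q / 100000000) + 8 * Real.log 10 := by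
      rw [Real.log_div hq0.ne' (by norm_num), show (100000000 : ℝ) = 10 ^ 8 by norm_num,
        Real.log_pow]
      push_cast; ring
    have h2 : Real.log (q / 100000000) ≤ q / 100000000 - 1 :=
      Real.log_le_sub_one_of_pos (by positivity)
    have h3 : Real.log 10 ≤ 3 := by
      have := Real.log_le_log (by norm_num : (0 : ℝ) < 10) (by norm_num : (10 : ℝ) ≤ 18)
      linarith
    linarith
  have hRpos : 0 < R := by positivity
  have hRl2 : 1 / 4 * l ≤ Real.log R := by
    rw [hlogR]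
    have : 0 ≤ 3 * σ * l := by positivity
    linarith
  have hR1 : 1 ≤ R := by
    rw [← Real.log_nonneg_iff hRpos]
    linarith
  have hRl : Real.log R ≤ 3 / 10 * l := by
    rw [hlogR]
    nlinarith
  set W := 50 / 51 * (Real.log R + 16 / 5) with hW
  have hWl : W ≤ l := by
    rw [hW]; linarith
  have hW1 : 1 ≤ W := by
    rw [hW]; linarith
  have hW0 : 0 < W := by linarith
  have h2W : 2 * W ≤ q := by linarith
  obtain ⟨i, hi⟩ : ∃ i : ℕ, i = ⌈9 * q / (2 * W)⌉₊ := ⟨_, rfl⟩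
  have hi1 : 9 * q / (2 * W) ≤ i := by rw [hi]; exact Nat.le_ceil _
  have hi2 : (i : ℝ) ≤ 5 * q / W := by
    have h1 : (i : ℝ) < 9 * q / (2 * W) + 1 := by rw [hi]; exact Nat.ceil_lt_add_one (by positivity)
    have h2 : 1 ≤ q / (2 * W) := by rw [one_le_div (by positivity)]; exact h2W
    have h3 : 9 * q / (2 * W) + q / (2 * W) = 5 * q / W := by field_simp; ring
    linarith
  have hi5 : (i : ℝ) ≤ 5 * q := by
    refine hi2.trans ?_
    apply div_le_self (by positivity) hW1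
  have hipos : (0 : ℝ) < i := lt_of_lt_of_le (by positivity) hi1
  have hi1n : 1 ≤ i := by
    have : 0 < i := by exact_mod_cast hipos
    omega
  have hi1r : (1 : ℝ) ≤ i := by exact_mod_cast hi1n
  have hRw : 1 ≤ R * Real.exp (-W) := by
    rw [← Real.exp_log hRpos, ← Real.exp_add]
    apply Real.one_le_exp
    rw [hW]
    linarith
  have hΓ : Real.log R - W + 16 / 5 ≤ W / 50 := by
    have : 51 / 50 * W = Real.log R + 16 / 5 := by rw [hW]; ring
    linarith
  have h17 : Real.log 20 ≤ 4 := by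
    have h1 : Real.log 20 = Real.log (20 / 2 ^ 4) + 4 * Real.log 2 := by
      rw [Real.log_div (by norm_num) (by norm_num), Real.log_pow]; push_cast; ring
    have h2 : Real.log (20 / 2 ^ 4) ≤ 20 / 2 ^ 4 - 1 := Real.log_le_sub_one_of_pos (by norm_num)
    have h3 := Real.log_two_lt_d9
    rw [h1]; linarith
  have hlog20 : ∀ x : ℝ, 0 < x → x ≤ 20 * q → Real.log x ≤ 4 + Real.log q := by
    intro x hx hxq
    calc Real.log x ≤ Real.log (20 * q) := Real.log_le_log hx hxq
      _ = Real.log 20 + Real.log q := Real.log_mul (by norm_num) hq0.ne'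
      _ ≤ _ := by linarith
  have hΩ : 40 * (Real.log (2 * i) + Real.log (3 * i + 2) + Real.log (4 * i)) < q := by
    have a1 := hlog20 (2 * i) (by positivity) (by linarith)
    have a2 := hlog20 (3 * i + 2) (by positivity) (by linarith)
    have a3 := hlog20 (4 * i) (by positivity) (by linarith)
    linarith
  obtain ⟨Θ, hΘ⟩ : ∃ Θ : ℝ, Θ = 1000 * R ^ 4 * i / Real.exp (-W) := ⟨_, rfl⟩
  have hΘpos : 0 < Θ := by rw [hΘ]; positivity
  have h1000 : Real.log 1000 ≤ 9 := by
    have h1 : Real.log 1000 = 3 * Real.log 10 := by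
      rw [show (1000 : ℝ) = 10 ^ 3 by norm_num, Real.log_pow]; push_cast; ring
    have h3 : Real.log 10 ≤ 3 := by
      have := Real.log_le_log (by norm_num : (0 : ℝ) < 10) (by norm_num : (10 : ℝ) ≤ 18)
      linarith
    linarith
  have hlogΘ : Real.log Θ = Real.log 1000 + 4 * Real.log R + Real.log i + W := by
    rw [hΘ, Real.log_div (by positivity) (Real.exp_pos _).ne', Real.log_exp,
      Real.log_mul (by positivity) hipos.ne', Real.log_mul (by norm_num) (by positivity),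
      Real.log_pow]
    push_cast
    ring
  have hlogi0 : 0 ≤ Real.log i := Real.log_nonneg hi1r
  have hlogi := hlog20 i hipos (by linarith)
  have hlog1000 : 0 ≤ Real.log 1000 := Real.log_nonneg (by norm_num)
  have hΘW : W ≤ Real.log Θ := by
    rw [hlogΘ]; linarith
  have hΘ1 : 1 ≤ Θ := by
    rw [← Real.log_nonneg_iff hΘpos]; linarith
  have hΘlow : 1 ≤ Real.log Θ := by linarith
  have hΘup : Real.log Θ ≤ 5 * L := by
    rw [hlogΘ]; linarith
  have hΘq : 40 * Real.log Θ ≤ q := by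
    rw [hlogΘ]; linarith
  obtain ⟨μ, hμdef⟩ : ∃ μ : ℕ, μ = ⌊q / (20 * Real.log Θ)⌋₊ := ⟨_, rfl⟩
  have hx2 : 2 ≤ q / (20 * Real.log Θ) := by
    rw [le_div_iff₀ (by positivity)]; linarith
  have hμ1 : (μ : ℝ) ≤ q / (20 * Real.log Θ) := by
    rw [hμdef]; exact Nat.floor_le (by positivity)
  have hμ2 : q / (40 * Real.log Θ) ≤ μ := by
    have h1 : q / (20 * Real.log Θ) < μ + 1 := by rw [hμdef]; exact Nat.lt_floor_add_one _
    have h2 : q / (40 * Real.log Θ) = q / (20 * Real.log Θ) / 2 := by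
      field_simp; ring
    rw [h2]
    linarith
  have hμpos : (0 : ℝ) < μ := lt_of_lt_of_le (by positivity) hμ2
  have hμposn : 0 < μ := by exact_mod_cast hμpos
  have hμ : μ * Real.log Θ ≤ q / 20 := by
    calc μ * Real.log Θ ≤ q / (20 * Real.log Θ) * Real.log Θ := by gcongr
      _ = q / 20 := by field_simp
  have hμi : μ ≤ i := by
    have h1 : (μ : ℝ) ≤ i := by
      calc (μ : ℝ) ≤ q / (20 * Real.log Θ) := hμ1
        _ ≤ 9 * q / (2 * W) := by
          rw [div_le_div_iff₀ (by positivity) (by positivity)]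
          nlinarith [mul_pos hq0 hW0, mul_le_mul_of_nonneg_left hΘW hq0.le]
        _ ≤ i := hi1
    exact_mod_cast h1
  have hnum := num_arc3 R W q Θ i μ hR1 hW1 h2W hi1 hi2 hRw hΓ hΘ1 hμ hΩ
  have hcount := bal_count3 R (Real.exp (-W)) (Real.exp q) (Real.exp (9 / 8 * q)) (2 * i / μ) hR1
    (Real.exp_pos _) (Real.exp_le_one_iff.2 (by linarith)) (Real.one_le_exp hq0.le)
    (fun a b c X0 T ha hbc haR hbR hcR hX0 hT => by
      rw [Nat.le_div_iff_mul_le hμposn]
      exact arc_card3 a b c ha hbc X0 R W q Θ i μ hX0 hR1 haR hbR hcR hW0 hq0 hRw hi1n hμi hΘ hnum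
        T hT) S hS
  refine hcount.trans ?_
  have hN : ((2 * i / μ : ℕ) : ℝ) ≤ 2000 * L := by
    calc ((2 * i / μ : ℕ) : ℝ) ≤ ((2 * i : ℕ) : ℝ) / μ := Nat.cast_div_le
      _ ≤ (2 * (5 * q / W)) / (q / (40 * Real.log Θ)) := by
          push_cast
          gcongr
      _ = 400 * Real.log Θ / W := by field_simp; ring
      _ ≤ 400 * Real.log Θ := by
          apply div_le_self (by positivity) hW1
      _ ≤ 2000 * L := by linarith
  have hL1 : 1 ≤ L := by linarith
  have hE : 2 / Real.exp (-W) = 2 * Real.exp W := by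
    rw [Real.exp_neg]; field_simp
  rw [hE]
  have hE1 : 1 ≤ Real.exp W := Real.one_le_exp hW0.le
  have b1 : (2 * R + 1) ^ 3 ≤ (3 * R) ^ 3 := by gcongr; linarith
  have b2 : (2 * Real.exp W + 3) * ((2 * i / μ : ℕ) : ℝ) + 1 ≤ 10001 * (Real.exp W * L) := by
    calc (2 * Real.exp W + 3) * ((2 * i / μ : ℕ) : ℝ) + 1
        ≤ (5 * Real.exp W) * (2000 * L) + Real.exp W * L := by
          have h1 : (1 : ℝ) ≤ Real.exp W * L := one_le_mul_of_one_le_of_one_le hE1 hL1
          have h2 : (2 * Real.exp W + 3) * ((2 * i / μ : ℕ) : ℝ) ≤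
              (5 * Real.exp W) * (2000 * L) := by
            gcongr; linarith
          linarith
      _ = 10001 * (Real.exp W * L) := by ring
  have b3 : R ^ 3 = Real.exp (3 * Real.log R) := by
    rw [← Real.exp_log hRpos, ← Real.exp_nat_mul, Real.log_exp]; push_cast; rfl
  calc (2 * R + 1) ^ 3 * ((2 * Real.exp W + 3) * ((2 * i / μ : ℕ) : ℝ) + 1)
      ≤ (3 * R) ^ 3 * (10001 * (Real.exp W * L)) := by gcongr
    _ = 270027 * L * (R ^ 3 * Real.exp W) := by ring
    _ = 270027 * L * Real.exp (3 * Real.log R + W) := by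
        rw [b3, ← Real.exp_add]
    _ ≤ 1000000 * L * Real.exp (16 + (1 - 1 / 204 + 12 * σ) * l) := by
        apply mul_le_mul _ _ (Real.exp_pos _).le (by positivity)
        · linarith
        · apply Real.exp_le_exp.2
          have e1 : 3 * Real.log R + W = 203 / 51 * Real.log R + 160 / 51 := by
            rw [hW]; ring
          rw [e1, hlogR]
          have e2 : 0 ≤ σ * l := by positivity
          linarith
    _ = 1000000 * Real.exp 16 * L * K ^ (1 - 1 / 204 + 12 * σ) := by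
        rw [Real.exp_add, hKl]; ring

end Pool.Agent.Work.MP_f2148a_nt.Exp
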