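import Mathlib
import Pool.Agent.Work.MP_f2148a_nt.Exp3.Sub3
import Pool.Agent.Work.MP_f2148a_nt.Exp.Quad2

set_option autoImplicit false

namespace Pool.Agent.Work.MP_f2148a_nt.Exp

theorem quad3 (σ K κ M : ℝ) (hσ0 : 0 < σ) (hσ : σ ≤ 1 / 10000) (hK : 1 ≤ K)
    (hl0 : 1 ≤ Real.log K) (hσl : 1 ≤ σ * Real.log K)
    (hB : 16000 * Real.log K ≤ κ) (hκ : κ ≤ M)
    (k x y : ℤ) (hk0 : k ≠ 0) (hk : |(k : ℝ)| ≤ K)
    (hxy : y ^ 2 = x ^ 3 + k) (hlo : Real.exp κ < max |(x : ℝ)| |(y : ℝ)|)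
    (hhi : max |(x : ℝ)| |(y : ℝ)| ≤ Real.exp M) :
    ∃ q : ℤ × ℤ × ℤ × ℤ, Dv q.1 q.2.1 q.2.2.1 q.2.2.2 = 4 * k ∧
      (Bal4 (18 * K ^ (1 / 4 + 3 * σ)) (κ / 8) (2 * M) q ∨
        Unb (18720 * K ^ (1 - σ)) q) := by
  have hKpos : 0 < K := by linarith
  obtain ⟨l, hl⟩ : ∃ l, l = Real.log K := ⟨_, rfl⟩
  rw [← hl] at hl0 hσl hB
  have hKl : ∀ x : ℝ, K ^ x = Real.exp (x * l) := fun x => by
    rw [Real.rpow_def_of_pos hKpos, mul_comm, hl]
  have hKe : K = Real.exp l := by rw [hl, Real.exp_log hKpos]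
  have hl1 : 10000 ≤ l := by nlinarith
  have hκl : 16000 * l ≤ κ := by linarith
  set H := K ^ (1 / 4 : ℝ) with hH
  have hHe : H = Real.exp (1 / 4 * l) := hKl _
  have hH1 : 1 ≤ H := Real.one_le_rpow hK (by norm_num)
  have hH0 : 0 < H := by linarith
  have hH4 : H ^ 4 = K := by
    rw [hH, ← Real.rpow_natCast, ← Real.rpow_mul hKpos.le]
    norm_num
  set S := K ^ σ with hS
  have hSe : S = Real.exp (σ * l) := hKl _
  have he1 : (2 : ℝ) ≤ Real.exp 1 := by
    have := Real.add_one_le_exp (1 : ℝ)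
    linarith
  have hS2 : 2 ≤ S := by
    rw [hSe]
    exact he1.trans (Real.exp_le_exp.2 hσl)
  have hS0 : 0 < S := by linarith
  have hKL : K ≤ Real.exp κ := by
    rw [hKe]; exact Real.exp_le_exp.2 (by linarith)
  have hL2 : 2 ≤ Real.exp κ := he1.trans (Real.exp_le_exp.2 (by linarith))
  obtain ⟨hx0, hx3⟩ := size_facts K (Real.exp κ) x y k hK hKL hL2 hk hxy hlo
  have hxZ : 0 < x := by exact_mod_cast hx0
  set t := Real.sqrt x with ht
  have ht0 : 0 < t := Real.sqrt_pos.2 hx0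
  have htt : t ^ 2 = x := Real.sq_sqrt hx0.le
  -- the lower bound for t
  have hlow : Real.exp (κ / 8) * (H * S) ≤ t := by
    apply le_of_pow_le_pow_left₀ (n := 6) (by norm_num) ht0.le
    have e2 : t ^ 6 = (x : ℝ) ^ 3 := by
      calc t ^ 6 = (t ^ 2) ^ 3 := by ring
        _ = (x : ℝ) ^ 3 := by rw [htt]
    rw [e2]
    refine le_trans ?_ hx3
    rw [hHe, hSe, ← Real.exp_add, ← Real.exp_add, ← Real.exp_nat_mul, le_div_iff₀ (by norm_num)]
    calc Real.exp (((6 : ℕ) : ℝ) * (κ / 8 + (1 / 4 * l + σ * l))) * 2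
        ≤ Real.exp (((6 : ℕ) : ℝ) * (κ / 8 + (1 / 4 * l + σ * l))) * Real.exp 1 := by gcongr
      _ = Real.exp (((6 : ℕ) : ℝ) * (κ / 8 + (1 / 4 * l + σ * l)) + 1) := by
          rw [← Real.exp_add]
      _ ≤ Real.exp (((2 : ℕ) : ℝ) * κ) := by
          apply Real.exp_le_exp.2
          push_cast
          nlinarith
      _ = Real.exp κ ^ 2 := by rw [Real.exp_nat_mul]
  have hE1 : Real.exp (4 * l) ≤ Real.exp (κ / 8) := Real.exp_le_exp.2 (by linarith)
  have h4K : 4 * K ≤ x := by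
    rw [← htt]
    have h1 : 4 * K ≤ Real.exp (4 * l) := by
      calc 4 * K ≤ Real.exp 1 * Real.exp 1 * K := by
            gcongr
            nlinarith
        _ = Real.exp (1 + 1 + l) := by rw [Real.exp_add, Real.exp_add, hKe]
        _ ≤ Real.exp (4 * l) := Real.exp_le_exp.2 (by linarith)
    have h2 : Real.exp (4 * l) ≤ t := by
      refine hE1.trans (le_trans ?_ hlow)
      have : 1 ≤ H * S := by nlinarith
      have := Real.exp_pos (κ / 8)
      nlinarith
    have h3 : 1 ≤ t := le_trans (Real.one_le_exp (by linarith)) h2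
    nlinarith
  have h2SH : 2 * S * H ≤ t := by
    refine le_trans ?_ hlow
    have h1 : 2 ≤ Real.exp (κ / 8) := he1.trans (Real.exp_le_exp.2 (by linarith))
    have h2 : 0 < H * S := by positivity
    nlinarith
  have hyne : y ≠ 0 := by
    intro hy
    rw [hy] at hxy
    have h1 : (0 : ℝ) = (x : ℝ) ^ 3 + k := by
      have : (0 : ℤ) = x ^ 3 + k := by linarith
      exact_mod_cast this
    have h2 := (abs_le.1 hk).1
    have hx1 : (1 : ℝ) ≤ x := by exact_mod_cast hxZ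
    have h3 : (x : ℝ) ≤ (x : ℝ) ^ 3 := by
      calc (x : ℝ) = (x : ℝ) ^ 1 := by ring
        _ ≤ (x : ℝ) ^ 3 := by gcongr <;> norm_num
    linarith
  have hk0' : |y| ^ 2 - x ^ 3 = k := by rw [sq_abs]; linarith
  obtain ⟨a, b, c, d, hD, ha, hcase⟩ := geom x |y| H S hH1 hS2 hxZ (abs_pos.2 hyne)
    (by
      intro h
      rw [h] at hk0'
      apply hk0
      rw [← hk0']; ring)
    (by
      have : ((|y| : ℤ) : ℝ) ^ 2 - (x : ℝ) ^ 3 = k := by exact_mod_cast hk0'
      rw [this, hH4]; exact hk)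
    (by rw [hH4]; exact h4K) h2SH
  refine ⟨(a, b, c, d), by rw [hD, hk0'], ?_⟩
  rcases hcase with ⟨hA', hB', hC', hDD, p, r, hF, hpr, hr1, hr2⟩ | hun
  · left
    have hbd : 18 * H * S ^ 3 = 18 * K ^ (1 / 4 + 3 * σ) := by
      rw [hHe, hSe, ← Real.exp_nat_mul, mul_assoc, ← Real.exp_add, hKl]
      congr 2
      push_cast
      ring
    rw [hbd] at hA' hB' hC' hDD
    refine ⟨ha, hA', hB', hC', hDD, ?_, p, r, hF, ?_, ?_, hpr⟩
    · rw [hD, hk0']
      exact mul_ne_zero (by norm_num) hk0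
    · refine le_trans ?_ hr1
      rw [le_div_iff₀ (by positivity)]
      exact hlow
    · refine hr2.trans ?_
      rw [div_le_iff₀ hH0]
      have hx1 : (1 : ℝ) ≤ x := by exact_mod_cast hxZ
      have hsx : t ≤ x := by
        rw [ht, Real.sqrt_le_left hx0.le]
        nlinarith
      have hxe : (x : ℝ) ≤ Real.exp M :=
        (le_abs_self _).trans ((le_max_left _ _).trans hhi)
      have hSle : S ≤ Real.exp M := by
        rw [hSe]
        apply Real.exp_le_exp.2
        nlinarith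
      calc t * S ≤ Real.exp M * Real.exp M := by
            gcongr
            exact hsx.trans hxe
        _ = Real.exp (2 * M) := by rw [← Real.exp_add]; ring_nf
        _ ≤ Real.exp (2 * M) * H := by
            have := Real.exp_pos (2 * M)
            nlinarith
  · right
    unfold Unb
    rw [hH4] at hun
    refine hun.trans (le_of_eq ?_)
    rw [hS, Real.rpow_sub hKpos, Real.rpow_one]
    ring

end Pool.Agent.Work.MP_f2148a_nt.Exp
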