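import Mathlib
import Pool.Agent.Work.MP_f2148a_nt.Exp3.Sub3

set_option autoImplicit false

namespace Pool.Agent.Work.MP_f2148a_nt.Exp

/-- All ranges together. -/
theorem range_bound3 (σ K L q0 : ℝ) (hσ0 : 0 ≤ σ) (hσ : σ ≤ 1 / 10000) (hK : 1 ≤ K)
    (hl0 : 1000 ≤ Real.log K) (hL : Real.log K ≤ L)
    (hB : 100000 * Real.log K ≤ q0)
    (S : Finset (ℤ × ℤ × ℤ × ℤ))
    (hS : ∀ x ∈ S, Bal4 (18 * K ^ (1 / 4 + 3 * σ)) q0 (2 * Real.exp L) x) :
    (S.card : ℝ) ≤ 11 * L * (1000000 * Real.exp 16 * L * K ^ (1 - 1 / 204 + 12 * σ)) := by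
  classical
  have hKpos : 0 < K := by linarith
  set l := Real.log K with hl
  have hq0 : 0 < q0 := by linarith
  have hq1 : 1 ≤ q0 := by linarith
  have hL1 : 1000 ≤ L := by linarith
  set R := 18 * K ^ (1 / 4 + 3 * σ) with hR
  set Z := 1000000 * Real.exp 16 * L * K ^ (1 - 1 / 204 + 12 * σ) with hZ
  have hZ0 : 0 ≤ Z := by positivity
  have hex : ∀ x : ℤ × ℤ × ℤ × ℤ, ∃ n : ℕ, x ∈ S → n < ⌊9 * (1 + L)⌋₊ + 1 ∧
      q0 * (9 / 8) ^ n ≤ 2 * Real.exp L ∧
      Bal4 R (q0 * (9 / 8) ^ n) (9 / 8 * (q0 * (9 / 8) ^ n)) x := by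
    intro x
    by_cases hx : x ∈ S
    · obtain ⟨h1, h2, h3, h4, h5, hdv, p, r, h6, h7, h8, h9⟩ := hS x hx
      have hr0 : (0 : ℝ) < r := (Real.exp_pos _).trans_le h7
      have hu1 : q0 ≤ Real.log r := by
        rw [← Real.log_exp q0]; exact Real.log_le_log (Real.exp_pos _) h7
      have hu2 : Real.log r ≤ 2 * Real.exp L := by
        rw [← Real.log_exp (2 * Real.exp L)]; exact Real.log_le_log hr0 h8
      obtain ⟨n, hn1, hn2⟩ := exists_nat_pow_near (x := Real.log r / q0) (y := 9 / 8)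
        (by rw [one_le_div hq0]; exact hu1) (by norm_num)
      have hn1' : q0 * (9 / 8) ^ n ≤ Real.log r := by
        rw [le_div_iff₀ hq0] at hn1; linarith
      have hn2' : Real.log r ≤ 9 / 8 * (q0 * (9 / 8) ^ n) := by
        rw [div_lt_iff₀ hq0, pow_succ] at hn2; linarith
      refine ⟨n, fun _ => ⟨?_, hn1'.trans hu2, h1, h2, h3, h4, h5, hdv, p, r, h6, ?_, ?_, h9⟩⟩
      · rw [Nat.lt_succ_iff]
        apply Nat.le_floor
        have h10 : ((9 : ℝ) / 8) ^ n ≤ 2 * Real.exp L := by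
          calc ((9 : ℝ) / 8) ^ n ≤ q0 * (9 / 8) ^ n := by
                have : (0 : ℝ) < (9 / 8) ^ n := by positivity
                nlinarith
            _ ≤ _ := hn1'.trans hu2
        have h11 : (n : ℝ) * Real.log (9 / 8) ≤ 1 + L := by
          rw [← Real.log_pow]
          calc Real.log ((9 / 8) ^ n) ≤ Real.log (2 * Real.exp L) :=
                Real.log_le_log (by positivity) h10
            _ = Real.log 2 + L := by
              rw [Real.log_mul (by norm_num) (Real.exp_pos _).ne', Real.log_exp]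
            _ ≤ 1 + L := by
              have := Real.log_two_lt_d9
              linarith
        have h12 : (1 : ℝ) / 9 ≤ Real.log (9 / 8) := by
          have := Real.one_sub_inv_le_log_of_pos (x := 9 / 8) (by norm_num)
          norm_num at this ⊢
          linarith
        have h13 : (n : ℝ) * (1 / 9) ≤ n * Real.log (9 / 8) := by gcongr
        linarith
      · rw [← Real.exp_log hr0]; exact Real.exp_le_exp.2 hn1'
      · conv_lhs => rw [← Real.exp_log hr0]
        exact Real.exp_le_exp.2 hn2'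
    · exact ⟨0, fun h => absurd h hx⟩
  choose f hf using hex
  have hsum : S.card = ∑ n ∈ Finset.range (⌊9 * (1 + L)⌋₊ + 1),
      (S.filter (fun x => f x = n)).card := by
    apply Finset.card_eq_sum_card_fiberwise
    intro x hx
    exact Finset.mem_coe.2 (Finset.mem_range.2 (hf x hx).1)
  have hfib : ∀ n ∈ Finset.range (⌊9 * (1 + L)⌋₊ + 1),
      ((S.filter (fun x => f x = n)).card : ℝ) ≤ Z := by
    intro n _
    rcases (S.filter (fun x => f x = n)).eq_empty_or_nonempty with h | ⟨x, hx⟩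
    · rw [h]; simpa using hZ0
    · obtain ⟨hxS, hxn⟩ := Finset.mem_filter.1 hx
      have h1 := (hf x hxS).2.1
      rw [hxn] at h1
      apply sub_bound3 σ K L (q0 * (9 / 8) ^ n) hσ0 hσ hK hl0 hL ?_ h1
      · intro z hz
        obtain ⟨hzS, hzn⟩ := Finset.mem_filter.1 hz
        have h2 := (hf z hzS).2.2
        rw [hzn] at h2
        exact h2
      · refine hB.trans ?_
        have : (1 : ℝ) ≤ (9 / 8) ^ n := one_le_pow₀ (by norm_num)
        nlinarith
  have hfl : ((⌊9 * (1 + L)⌋₊ + 1 : ℕ) : ℝ) ≤ 11 * L := by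
    push_cast
    have := Nat.floor_le (a := 9 * (1 + L)) (by linarith)
    linarith
  calc (S.card : ℝ) = ∑ n ∈ Finset.range (⌊9 * (1 + L)⌋₊ + 1),
        ((S.filter (fun x => f x = n)).card : ℝ) := by rw [hsum]; push_cast; rfl
    _ ≤ ∑ n ∈ Finset.range (⌊9 * (1 + L)⌋₊ + 1), Z := Finset.sum_le_sum hfib
    _ = ((⌊9 * (1 + L)⌋₊ + 1 : ℕ) : ℝ) * Z := by
        rw [Finset.sum_const, Finset.card_range, nsmul_eq_mul]
    _ ≤ 11 * L * Z := by gcongr

end Pool.Agent.Work.MP_f2148a_nt.Exp
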