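import Mathlib
import Pool.Agent.Work.MP_f2148a_nt.Exp3.Quad3
import Pool.Agent.Work.MP_f2148a_nt.Exp3.Range3
import Pool.Agent.Work.MP_f2148a_nt.Exp.Assembly2

set_option autoImplicit false

namespace Pool.Agent.Work.MP_f2148a_nt.Exp

open Filter

theorem final3 (A0 : ℝ) (hA0 : ∀ K : ℝ, 1 ≤ K →
      ((Win K (Real.exp (K ^ (1 / 1000000 : ℝ)))).ncard : ℝ) ≤ A0 * K ^ (1 - 1 / 1000000 : ℝ)) :
    ∃ A : ℝ, ∀ K : ℝ, 1 ≤ K →
      ((Win K (Real.exp (Real.exp (K ^ (1 / 1000 : ℝ))))).ncard : ℝ) ≤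
        A * K ^ (1 - 1 / 1000000 : ℝ) := by
  classical
  have hev : ∀ᶠ K : ℝ in atTop, 1 ≤ K ∧ 10000 ≤ Real.log K ∧
      Real.log K ≤ K ^ (1 / 1000 : ℝ) ∧
      800000 * Real.log K ≤ K ^ (1 / 1000000 : ℝ) := by
    filter_upwards [eventually_ge_atTop (1 : ℝ),
      Real.tendsto_log_atTop.eventually (eventually_ge_atTop (10000 : ℝ)),
      ev_log_rpow 1 (1 / 1000) (by norm_num) (by norm_num),
      ev_log_rpow 800000 (1 / 1000000) (by norm_num) (by norm_num)] with K h1 h2 h3 h4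
    refine ⟨h1, h2, ?_, h4⟩
    rwa [one_mul] at h3
  obtain ⟨K0, hK0⟩ := eventually_atTop.1 hev
  obtain ⟨c2, hc2, hu⟩ := unb_final2 (1 / 10000) (by positivity) (by norm_num)
  set c1 : ℝ := 11 * (1000000 * Real.exp 16) with hc1
  have hc1p : 0 < c1 := by positivity
  refine ⟨max (5 * |K0|) (|A0| + c1 + c2), fun K hK => ?_⟩
  have hKpos : 0 < K := by linarith
  have hKd : 1 ≤ K ^ (1 - 1 / 1000000 : ℝ) := Real.one_le_rpow hK (by norm_num)
  rcases lt_or_ge K K0 with hlt | hge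
  · have hK0' : K ≤ |K0| := hlt.le.trans (le_abs_self _)
    calc ((Win K (Real.exp (Real.exp (K ^ (1 / 1000 : ℝ))))).ncard : ℝ) ≤ 5 * K := Win_card _ _ hK
      _ ≤ 5 * |K0| * 1 := by linarith
      _ ≤ max (5 * |K0|) (|A0| + c1 + c2) * K ^ (1 - 1 / 1000000 : ℝ) := by
          gcongr
          exact le_max_left _ _
  · obtain ⟨-, hl0, hA, hB⟩ := hK0 K hge
    obtain ⟨L, hL⟩ : ∃ L : ℝ, L = K ^ (1 / 1000 : ℝ) := ⟨_, rfl⟩
    obtain ⟨κ, hκ⟩ : ∃ κ : ℝ, κ = K ^ (1 / 1000000 : ℝ) := ⟨_, rfl⟩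
    have hA0K := hA0 K hK
    have hκL : κ ≤ L := by
      rw [hκ, hL]
      exact Real.rpow_le_rpow_of_exponent_le hK (by norm_num)
    have hLL : c1 * (L * L * K ^ (1 - 1 / 204 + 12 * (1 / 10000) : ℝ)) ≤
        c1 * K ^ (1 - 1 / 1000000 : ℝ) := by
      apply mul_le_mul_of_nonneg_left _ hc1p.le
      rw [hL, ← Real.rpow_add hKpos, ← Real.rpow_add hKpos]
      exact Real.rpow_le_rpow_of_exponent_le hK (by norm_num)
    rw [← hL] at hA ⊢
    rw [← hκ] at hB hA0K
    set W := Win K (Real.exp (Real.exp L)) with hW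
    set W1 := Win K (Real.exp κ) with hW1
    have hWf : W.Finite := Win_finite _ _
    have hW1f : W1.Finite := Win_finite _ _
    have hex : ∀ k : ℤ, ∃ q : ℤ × ℤ × ℤ × ℤ, k ∈ W \ W1 →
        Dv q.1 q.2.1 q.2.2.1 q.2.2.2 = 4 * k ∧
        (Bal4 (18 * K ^ (1 / 4 + 3 * (1 / 10000 : ℝ))) (κ / 8)
          (2 * Real.exp L) q ∨ Unb (18720 * K ^ (1 - 1 / 10000 : ℝ)) q) := by
      intro k
      by_cases hk : k ∈ W \ W1
      · obtain ⟨⟨hk0, hkK, x, y, hxy, hmax⟩, hk2⟩ := hk
        have hlo : Real.exp κ < max |(x : ℝ)| |(y : ℝ)| := by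
          by_contra h
          push Not at h
          exact hk2 ⟨hk0, hkK, x, y, hxy, h⟩
        have hLe : L ≤ Real.exp L := by
          have := Real.add_one_le_exp L
          linarith
        obtain ⟨q, h1, h2⟩ := quad3 (1 / 10000) K κ (Real.exp L) (by norm_num) le_rfl hK
          (by linarith) (by linarith) (by linarith) (hκL.trans hLe) k x y hk0 hkK hxy hlo hmax
        exact ⟨q, fun _ => ⟨h1, h2⟩⟩
      · exact ⟨(0, 0, 0, 0), fun h => absurd h hk⟩
    choose f hf using hex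
    have hDf : (W \ W1).Finite := hWf.subset Set.sdiff_subset
    set T := hDf.toFinset with hT
    have hTmem : ∀ k, k ∈ T ↔ k ∈ W \ W1 := fun k => by rw [hT, Set.Finite.mem_toFinset]
    have hinj : Set.InjOn f (T : Set ℤ) := by
      intro k hk l hl hkl
      have e1 := (hf k ((hTmem k).1 hk)).1
      have e2 := (hf l ((hTmem l).1 hl)).1
      rw [hkl] at e1
      linarith
    have hcT : (T.card : ℝ) ≤ (c1 + c2) * K ^ (1 - 1 / 1000000 : ℝ) := by
      rw [← Finset.card_filter_add_card_filter_not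
        (fun k => Bal4 (18 * K ^ (1 / 4 + 3 * (1 / 10000 : ℝ))) (κ / 8)
          (2 * Real.exp L) (f k)) (s := T)]
      push_cast
      rw [add_mul]
      apply add_le_add
      · rw [← Finset.card_image_of_injOn (f := f)
          (hinj.mono (by intro k hk; exact (Finset.mem_filter.1 hk).1))]
        refine (range_bound3 (1 / 10000) K L (κ / 8) (by norm_num) le_rfl hK (by linarith) hA
          (by linarith) _ ?_).trans ?_
        · intro q hq
          obtain ⟨k, hk, rfl⟩ := Finset.mem_image.1 hq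
          exact (Finset.mem_filter.1 hk).2
        · refine le_trans (le_of_eq ?_) hLL
          rw [hc1]
          ring
      · rw [← Finset.card_image_of_injOn (f := f)
          (hinj.mono (by intro k hk; exact (Finset.mem_filter.1 hk).1))]
        refine (hu K hK _ ?_).trans ?_
        · intro q hq
          obtain ⟨k, hk, rfl⟩ := Finset.mem_image.1 hq
          obtain ⟨hk1, hk2⟩ := Finset.mem_filter.1 hk
          exact ((hf k ((hTmem k).1 hk1)).2).resolve_left hk2
        · apply mul_le_mul_of_nonneg_left _ hc2.le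
          apply Real.rpow_le_rpow_of_exponent_le hK
          norm_num
    have hcard : W.ncard ≤ W1.ncard + T.card := by
      have h1 : W ⊆ W1 ∪ (T : Set ℤ) := by
        intro k hk
        by_cases hk1 : k ∈ W1
        · exact Or.inl hk1
        · exact Or.inr ((hTmem k).2 ⟨hk, hk1⟩)
      calc W.ncard ≤ (W1 ∪ (T : Set ℤ)).ncard :=
            Set.ncard_le_ncard h1 (hW1f.union (Finset.finite_toSet _))
        _ ≤ W1.ncard + (T : Set ℤ).ncard := Set.ncard_union_le _ _
        _ = W1.ncard + T.card := by rw [Set.ncard_coe_finset]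
    have hW1c : (W1.ncard : ℝ) ≤ |A0| * K ^ (1 - 1 / 1000000 : ℝ) := by
      calc (W1.ncard : ℝ) ≤ A0 * K ^ (1 - 1 / 1000000 : ℝ) := hA0K
        _ ≤ |A0| * K ^ (1 - 1 / 1000000 : ℝ) := by gcongr; exact le_abs_self _
    calc (W.ncard : ℝ) ≤ W1.ncard + T.card := by exact_mod_cast hcard
      _ ≤ |A0| * K ^ (1 - 1 / 1000000 : ℝ) + (c1 + c2) * K ^ (1 - 1 / 1000000 : ℝ) := by gcongr
      _ = (|A0| + c1 + c2) * K ^ (1 - 1 / 1000000 : ℝ) := by ring
      _ ≤ max (5 * |K0|) (|A0| + c1 + c2) * K ^ (1 - 1 / 1000000 : ℝ) := by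
          gcongr
          exact le_max_right _ _

end Pool.Agent.Work.MP_f2148a_nt.Exp
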